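import Pool.Agent.Lib.LF.M.Defs

/-!
# C43 block M: `S_M1`, weighted word lengths on a free group are 0-hyperbolic
-/

set_option autoImplicit false

namespace Pool.Agent.LF.MM

open FreeGroup

/-- weight of a word -/
def wt {α : Type} (w : α → ℝ) (L : List (α × Bool)) : ℝ := (L.map fun p => w p.1).sum

/-- weight of the longest common prefix -/
def cpw {α : Type} [DecidableEq α] (w : α → ℝ) :
    List (α × Bool) → List (α × Bool) → ℝ
  | x :: u, y :: v => if x = y then w x.1 + cpw w u v else 0
  | _, _ => 0

section
variable {α : Type} [DecidableEq α] (w : α → ℝ)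

omit [DecidableEq α] in
theorem wt_nil : wt w [] = 0 := rfl

omit [DecidableEq α] in
theorem wt_cons (x : α × Bool) (u : List (α × Bool)) : wt w (x :: u) = w x.1 + wt w u := by
  simp [wt]

omit [DecidableEq α] in
theorem wt_append (u v : List (α × Bool)) : wt w (u ++ v) = wt w u + wt w v := by
  simp [wt]

omit [DecidableEq α] in
theorem wt_nonneg (hw : ∀ a, 0 ≤ w a) (u : List (α × Bool)) : 0 ≤ wt w u := by
  apply List.sum_nonneg
  intro x hx
  obtain ⟨p, _, rfl⟩ := List.mem_map.mp hx
  exact hw _

omit [DecidableEq α] in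
theorem wt_invRev (u : List (α × Bool)) : wt w (invRev u) = wt w u := by
  unfold wt invRev
  rw [List.map_reverse, List.sum_reverse, List.map_map]
  rfl

theorem wl_eq (g : FreeGroup α) : wl w g = wt w g.toWord := rfl

@[simp] theorem cpw_nil_left (v : List (α × Bool)) : cpw w [] v = 0 := by
  cases v <;> rfl

@[simp] theorem cpw_nil_right (u : List (α × Bool)) : cpw w u [] = 0 := by
  cases u <;> rfl

theorem cpw_cons (x y : α × Bool) (u v : List (α × Bool)) :
    cpw w (x :: u) (y :: v) = if x = y then w x.1 + cpw w u v else 0 := rfl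

theorem cpw_nonneg (hw : ∀ a, 0 ≤ w a) : ∀ u v : List (α × Bool), 0 ≤ cpw w u v
  | [], v => by simp
  | x :: u, [] => by simp
  | x :: u, y :: v => by
    rw [cpw_cons]
    split_ifs
    · exact add_nonneg (hw _) (cpw_nonneg hw u v)
    · exact le_rfl

theorem cpw_ultra (hw : ∀ a, 0 ≤ w a) : ∀ u t v : List (α × Bool),
    min (cpw w u t) (cpw w t v) ≤ cpw w u v
  | [], t, v => by simp
  | x :: u, t, [] => by simp
  | x :: u, [], y :: v => by
    simp only [cpw_nil_right, cpw_nil_left, min_self]
    exact cpw_nonneg w hw _ _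
  | x :: u, z :: t, y :: v => by
    have ih := cpw_ultra hw u t v
    rw [cpw_cons, cpw_cons, cpw_cons]
    by_cases h1 : x = z
    · by_cases h2 : z = y
      · subst h1 h2
        simp only [if_true]
        rw [min_add_add_left]
        exact add_le_add le_rfl ih
      · have h3 : ¬ x = y := fun h => h2 (h1 ▸ h)
        rw [if_neg h2, if_neg h3]
        exact min_le_right _ _
    · rw [if_neg h1]
      refine le_trans (min_le_left _ _) ?_
      split_ifs
      · exact add_nonneg (hw _) (cpw_nonneg w hw _ _)
      · exact le_rfl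

omit [DecidableEq α] in
theorem invRev_cons (x : α × Bool) (u : List (α × Bool)) :
    invRev (x :: u) = invRev u ++ [(x.1, !x.2)] := by
  simp [invRev]

theorem isReduced_invRev {u : List (α × Bool)} (h : IsReduced u) : IsReduced (invRev u) := by
  rw [isReduced_iff_reduce_eq, reduce_invRev, h.reduce_eq]

omit [DecidableEq α] in
theorem isReduced_tail {x : α × Bool} {u : List (α × Bool)} (h : IsReduced (x :: u)) :
    IsReduced u := by
  have h2 : IsReduced ([x] ++ u) := h
  rw [FreeGroup.IsReduced, List.isChain_append] at h2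
  exact h2.2.1

theorem reduce_cancel (x : α × Bool) (u v : List (α × Bool)) :
    reduce (invRev (x :: u) ++ x :: v) = reduce (invRev u ++ v) := by
  apply reduce.sound
  have e1 : (mk (invRev (x :: u) ++ x :: v) : FreeGroup α) = (mk (x :: u))⁻¹ * mk (x :: v) := by
    rw [inv_mk, mul_mk]
  have e2 : (mk (invRev u ++ v) : FreeGroup α) = (mk u)⁻¹ * mk v := by
    rw [inv_mk, mul_mk]
  have e3 : ∀ L : List (α × Bool), (mk (x :: L) : FreeGroup α) = mk [x] * mk L := by
    intro L
    rw [mul_mk]
    rfl
  rw [e1, e2, e3 u, e3 v]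
  group

theorem wt_reduce : ∀ u v : List (α × Bool), IsReduced u → IsReduced v →
    wt w (reduce (invRev u ++ v)) = wt w u + wt w v - 2 * cpw w u v
  | [], v, _, hv => by
    have : (invRev ([] : List (α × Bool))) = [] := rfl
    rw [this, List.nil_append, hv.reduce_eq, wt_nil, cpw_nil_left]
    ring
  | x :: u, [], hu, _ => by
    rw [List.append_nil, (isReduced_invRev hu).reduce_eq, wt_invRev, wt_nil, cpw_nil_right]
    ring
  | x :: u, y :: v, hu, hv => by
    rw [cpw_cons]
    by_cases hxy : x = y
    · subst hxy
      rw [reduce_cancel, wt_reduce u v (isReduced_tail hu) (isReduced_tail hv), if_pos rfl,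
        wt_cons, wt_cons]
      ring
    · rw [if_neg hxy]
      have h1 : IsReduced (invRev u ++ [(x.1, !x.2)]) := by
        rw [← invRev_cons]
        exact isReduced_invRev hu
      have h2 : IsReduced ([(x.1, !x.2)] ++ y :: v) := by
        rw [List.singleton_append, isReduced_cons_cons]
        refine ⟨?_, hv⟩
        intro h
        simp only at h ⊢
        by_contra hne
        apply hxy
        refine Prod.ext h ?_
        cases hx : x.2 <;> cases hy : y.2 <;> simp_all
      have h3 : IsReduced (invRev (x :: u) ++ y :: v) := by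
        rw [invRev_cons]
        exact IsReduced.append_overlap h1 h2 (by simp)
      rw [h3.reduce_eq, wt_append, wt_invRev]
      ring

theorem wl_inv_mul (g h : FreeGroup α) :
    wl w (g⁻¹ * h) = wl w g + wl w h - 2 * cpw w g.toWord h.toWord := by
  rw [wl_eq, toWord_mul, toWord_inv, wt_reduce w _ _ isReduced_toWord isReduced_toWord]
  rfl

end

theorem s_M1 : S_M1 := by
  intro α _ w hw
  refine ⟨?_, ?_, ?_, ?_, ?_⟩
  · rw [wl_eq, toWord_one, wt_nil]
  · intro g
    exact wt_nonneg w hw _
  · intro g
    rw [wl_eq, toWord_inv, wt_invRev]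
    rfl
  · intro g h
    have e := wl_inv_mul w g⁻¹ h
    rw [inv_inv] at e
    rw [e, wl_eq w g⁻¹, toWord_inv, wt_invRev]
    have := cpw_nonneg w hw (invRev g.toWord) h.toWord
    have e2 : wl w g = wt w g.toWord := rfl
    linarith
  · intro a b c d
    have key : ∀ x y : FreeGroup α, x⁻¹ * y = (a⁻¹ * x)⁻¹ * (a⁻¹ * y) := by
      intro x y
      group
    rw [key c d, key b d, key b c, wl_inv_mul w (a⁻¹ * c) (a⁻¹ * d),
      wl_inv_mul w (a⁻¹ * b) (a⁻¹ * d), wl_inv_mul w (a⁻¹ * b) (a⁻¹ * c)]
    have hu := cpw_ultra w hw (a⁻¹ * c).toWord (a⁻¹ * b).toWord (a⁻¹ * d).toWord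
    have hs : ∀ u v : List (α × Bool), cpw w u v = cpw w v u := by
      intro u
      induction u with
      | nil => intro v; simp
      | cons x u ih =>
        intro v
        cases v with
        | nil => simp
        | cons y v =>
          rw [cpw_cons, cpw_cons]
          by_cases h : x = y
          · subst h
            rw [if_pos rfl, if_pos rfl, ih]
          · rw [if_neg h, if_neg (fun h' => h h'.symm)]
    rw [hs (a⁻¹ * c).toWord (a⁻¹ * b).toWord] at hu
    rcases min_le_iff.mp hu with h | h
    · refine le_max_of_le_right ?_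
      linarith
    · refine le_max_of_le_left ?_
      linarith

end Pool.Agent.LF.MM
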