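import Pool.Agent.Lib.LF.M.Nine
import Pool.Agent.Lib.LF.M.Wl

/-!
# C43 block M: the port words, S_M
-/

set_option autoImplicit false
set_option linter.unusedSectionVars false

namespace Pool.Agent.LF.MM

theorem aw_em (j X : Fin 3) : aw j X = em j (FreeGroup.of X) := by simp [aw, em]

/-- the tie words -/
def tw : Fin 3 → List (Fin 3) := ![[0, 2], [0, 1, 2], [1, 2, 2]]

noncomputable def lamM (e : Et) : ℝ :=
  match e.1 with
  | .t j z => (bt + 1) ^ (j : ℕ) * wu [fx z, fy z]
  | .s j z => (bt + 1) ^ (j : ℕ) * wu [fx z, fy z]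
  | .r i X => (bt + 1) ^ ((i.succ : Fin 3) : ℕ) * wt3 X

theorem lamM_bar (e : Et) : lamM (bar e) = lamM e := rfl

theorem wu_pair (x y : Fin 3) : wu [x, y] = wt3 x + wt3 y := by
  rw [wu_cons, wu_cons, wu_nil, add_zero]

theorem heavy_pair (z : Fin 3) : bt ^ 3 < wu [fx z, fy z] := by
  have h := bt_cube
  have h1 := bt_lo
  have h3 : (3.24 : ℝ) < bt ^ 2 := by nlinarith
  rw [wu_pair]
  fin_cases z <;> simp [fx, fy, wt3] <;> nlinarith

theorem wu_triple (z : Fin 3) : wu [fx z, fy z, z] = 2 * bt ^ 3 := by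
  have h := bt_cube
  rw [wu_cons, wu_cons, wu_cons, wu_nil]
  fin_cases z <;> simp [fx, fy, wt3] <;> linarith

theorem wu_tw (X : Fin 3) : wu (tw X) = (bt + 1) * wt3 X := by
  have h := bt_cube
  fin_cases X <;> simp [tw, wu, wt3] <;> nlinarith

theorem lamM_pos (e : Et) : 0 < lamM e := by
  have hb := bt_pos
  rcases e with ⟨k, b⟩
  cases k with
  | t j z =>
    have h1 := heavy_pair z
    have h2 := pow_pos hb 3
    have h3 : 0 < wu [fx z, fy z] := by linarith
    simp only [lamM]; positivity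
  | s j z =>
    have h1 := heavy_pair z
    have h2 := pow_pos hb 3
    have h3 : 0 < wu [fx z, fy z] := by linarith
    simp only [lamM]; positivity
  | r i X =>
    have h1 := wt3_pos X
    have h3 : 0 < wt3 X := by linarith
    simp only [lamM]; positivity

/-! ## powers -/

theorem evp_replicate (p : List (Fin 3) × List (Fin 3)) (n : ℕ) :
    evp (List.replicate n p) = ((pw p.1)⁻¹ * pw p.2) ^ n := by
  induction n with
  | zero => simp [evp]
  | succ n ih => rw [List.replicate_succ, evp, ih, pow_succ']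

theorem wr_replicate (p : List (Fin 3) × List (Fin 3)) (n : ℕ) :
    wr (List.replicate n p) = n * ((wu p.1 - bt ^ 3) + (wu p.2 - bt ^ 3)) := by
  induction n with
  | zero => simp [wr]
  | succ n ih => rw [List.replicate_succ, wr, ih]; push_cast; ring

theorem ok_replicate (v u w : List (Fin 3)) (hvy' : v ≠ []) (hu : u ≠ [])
    (h1 : u.getLast? ≠ v.getLast?) (h2 : v.head? ≠ u.head?)
    (h3 : w = [] ∨ u.getLast? ≠ w.getLast?) (n : ℕ) : ∀ c : List (Fin 3),
    (c = [] ∨ c.getLast? = u.getLast?) → ok c (List.replicate n (v, u)) w := by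
  induction n with
  | zero =>
    intro c hc
    simp only [List.replicate_zero, ok]
    rcases hc with hc | hc
    · left; exact hc
    · right
      rcases h3 with h3 | h3
      · left; exact h3
      · right; rw [hc]; exact h3
  | succ n ih =>
    intro c hc
    rw [List.replicate_succ]
    refine ⟨hvy', hu, ?_, h2, ih u (Or.inr rfl)⟩
    rcases hc with hc | hc
    · left; exact hc
    · right; rw [hc]; exact h1

theorem pow_three_form {Γ : Type} [Group Γ] (V U Z : Γ) (n : ℕ) :
    (V⁻¹ * U * Z⁻¹) ^ (n + 1) = V⁻¹ * U * ((V * Z)⁻¹ * U) ^ n * Z⁻¹ := by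
  induction n with
  | zero => simp
  | succ n ih =>
    rw [pow_succ, ih, pow_succ _ n]
    group

section
variable (h1 : S_M1)

include h1 in
theorem L3_pow_pos (u : List (Fin 3)) (n : ℕ) : L3 ((pw u) ^ n) = n * wu u := by
  rw [pw_pow, L3_pw h1, wu_pow]

include h1 in
theorem L3_pow_two (z : Fin 3) (n : ℕ) :
    L3 (((pw [fy z, fx z])⁻¹ * pw [fx z, fy z, z]) ^ n) = n * wu [fx z, fy z] := by
  have hsym : wu [fy z, fx z] = wu [fx z, fy z] := by rw [wu_pair, wu_pair, add_comm]
  have hh := heavy_pair z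
  have ht := wu_triple z
  have h3 := pow_pos bt_pos 3
  have hok : ok [] (List.replicate n ([fy z, fx z], [fx z, fy z, z])) [] := by
    apply ok_replicate _ _ _ (by simp) (by simp) _ _ (Or.inl rfl) n _ (Or.inl rfl)
    · fin_cases z <;> simp [fx]
    · fin_cases z <;> simp [fx, fy]
  have hhv : hvy (List.replicate n ([fy z, fx z], [fx z, fy z, z])) := by
    intro p hp
    rw [List.mem_replicate] at hp
    rw [hp.2]
    refine ⟨by rw [hsym]; exact hh, ?_⟩
    rw [ht]; linarith
  have h4 := L3_ev h1 [] _ [] hok hhv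
  have h5 : ev [] (List.replicate n ([fy z, fx z], [fx z, fy z, z])) [] =
      ((pw [fy z, fx z])⁻¹ * pw [fx z, fy z, z]) ^ n := by
    rw [ev, evp_replicate, pw_nil]; simp
  rw [← h5, h4, wr_replicate, wu_nil]
  simp only
  rw [hsym, ht]
  ring

include h1 in
theorem L3_pow_three (z : Fin 3) (n : ℕ) :
    L3 (((pw [fy z, fx z])⁻¹ * pw [fx z, fy z] * (pw [z])⁻¹) ^ n) = n * wu [fx z, fy z] := by
  have hsym : wu [fy z, fx z] = wu [fx z, fy z] := by rw [wu_pair, wu_pair, add_comm]
  have hh := heavy_pair z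
  have ht := wu_triple z
  have h3 := pow_pos bt_pos 3
  have hz := wt3_pos z
  have hz1 : wu [z] = wt3 z := by rw [wu_cons, wu_nil, add_zero]
  have hz2 : wu [fy z, fx z, z] = wu [fy z, fx z] + wu [z] := by
    rw [← wu_append]; rfl
  have hz3 : wu [fx z, fy z, z] = wu [fx z, fy z] + wu [z] := by
    rw [← wu_append]; rfl
  cases n with
  | zero =>
    rw [pow_zero]
    have : L3 1 = 0 := LL_one wt3 sg3 bt h1 wt3_nonneg bt_pos sg3_of_le
    rw [this]; simp
  | succ n =>
    have hok : ok [] (([fy z, fx z], [fx z, fy z]) ::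
        List.replicate n ([fy z, fx z, z], [fx z, fy z])) [z] := by
      refine ⟨by simp, by simp, Or.inl rfl, ?_, ?_⟩
      · fin_cases z <;> simp [fx, fy]
      · apply ok_replicate _ _ _ (by simp) (by simp) _ _ _ n _ (Or.inr rfl)
        · fin_cases z <;> simp [fy]
        · fin_cases z <;> simp [fx, fy]
        · right; fin_cases z <;> simp [fy]
    have hhv : hvy (([fy z, fx z], [fx z, fy z]) ::
        List.replicate n ([fy z, fx z, z], [fx z, fy z])) := by
      intro p hp
      rcases List.mem_cons.mp hp with rfl | hp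
      · exact ⟨by rw [hsym]; exact hh, hh⟩
      · rw [List.mem_replicate] at hp
        rw [hp.2]
        refine ⟨?_, hh⟩
        rw [hz2, hsym, hz1]; linarith
    have h4 := L3_ev h1 [] _ [z] hok hhv
    have h5 : ev [] (([fy z, fx z], [fx z, fy z]) ::
        List.replicate n ([fy z, fx z, z], [fx z, fy z])) [z] =
        ((pw [fy z, fx z])⁻¹ * pw [fx z, fy z] * (pw [z])⁻¹) ^ (n + 1) := by
      rw [ev, evp, evp_replicate, pw_nil]
      simp only
      have h6 : pw [fy z, fx z, z] = pw [fy z, fx z] * pw [z] := by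
        rw [← pw_append]; rfl
      rw [h6]
      generalize pw [fy z, fx z] = V
      generalize pw [fx z, fy z] = U
      generalize pw [z] = Z
      rw [pow_three_form V U Z n]; group
    rw [← h5, h4, wr, wr_replicate, wu_nil]
    simp only
    rw [hz2, hsym]
    rw [hz3] at ht
    push_cast
    nlinarith

/-! ## the 48 words -/

theorem w_xy (j z : Fin 3) : aw j (fx z) * aw j (fy z) = em j (pw [fx z, fy z]) := by
  simp [aw_em, pw]

theorem w_pz (j z : Fin 3) : cm (aw j (fx z)) (aw j (fy z)) * aw j z =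
    em j ((pw [fy z, fx z])⁻¹ * pw [fx z, fy z, z]) := by
  simp only [aw_em, cm, pw, List.map_cons, List.map_nil, List.prod_cons, List.prod_nil, mul_one,
    map_mul, map_inv]
  group

theorem w_pzi (j z : Fin 3) : cm (aw j (fx z)) (aw j (fy z)) * (aw j z)⁻¹ =
    em j ((pw [fy z, fx z])⁻¹ * pw [fx z, fy z] * (pw [z])⁻¹) := by
  simp only [aw_em, cm, pw, List.map_cons, List.map_nil, List.prod_cons, List.prod_nil, mul_one,
    map_mul, map_inv]
  group

theorem w_tie (j X : Fin 3) : tie (aw j) X = em j (pw (tw X)) := by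
  fin_cases X <;> simp [tie, tw, aw_em, pw, mul_assoc]

theorem w_one (j X : Fin 3) : aw j X = em j (pw [X]) := by simp [aw_em, pw]

include h1 in
theorem L9_tgt (k : Kt) (n : ℕ) (b : Bool) : L9 ((tgt aw k) ^ n) = n * lamM (k, b) := by
  cases k with
  | t j z =>
    simp only [tgt, lamM]
    rw [w_xy, ← map_pow, L9_em h1, L3_pow_pos h1]; ring
  | s j z =>
    simp only [tgt, lamM]
    rw [w_pz, ← map_pow, L9_em h1, L3_pow_two h1]; ring
  | r i X =>
    simp only [tgt, lamM]
    rw [w_one, ← map_pow, L9_em h1, L3_pow_pos h1, wu_cons, wu_nil]; ring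

include h1 in
theorem L9_src (k : Kt) (n : ℕ) (b : Bool) : L9 ((src aw k) ^ n) = n * lamM (k, b) := by
  cases k with
  | t j z =>
    simp only [src, lamM]
    rw [w_pz, ← map_pow, L9_em h1, L3_pow_two h1]; ring
  | s j z =>
    simp only [src, lamM]
    rw [w_pzi, ← map_pow, L9_em h1, L3_pow_three h1]; ring
  | r i X =>
    simp only [src, lamM]
    rw [w_tie, ← map_pow, L9_em h1, L3_pow_pos h1, wu_tw, Fin.val_succ, Fin.val_castSucc]; ring

include h1 in
theorem L9_pe (e : Et) (n : ℕ) : L9 (pe e ^ n) = n * lamM e := by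
  rcases e with ⟨k, b⟩
  cases b
  · simp only [pe, Bool.false_eq_true, if_false]
    rw [inv_pow, L9_inv h1, L9_src h1]
  · simp only [pe, if_true]
    exact L9_tgt h1 k n true

end

theorem pM : S_M := by
  refine ⟨L9, lamM, lamM_pos, lamM_bar, ?_, L9_inv s_M1, ?_, L9_hyp s_M1, L9_pe s_M1,
    L9_sq s_M1⟩
  · exact LL_one wt9 sg9 bt s_M1 wt9_nonneg bt_pos sg9_of_le
  · intro g hg
    by_contra hne
    have := L9_pos s_M1 g hne
    linarith

end Pool.Agent.LF.MM
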