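import Pool.Agent.Lib.LF.M.Lists

/-!
# C43 block M: alternating words

`ev u0 l v = u0 · ∏ (p.1⁻¹ p.2) · v⁻¹` for positive words.
-/

set_option autoImplicit false

namespace Pool.Agent.LF.MM

open FreeGroup

abbrev PL := List (List (Fin 3) × List (Fin 3))

/-- positive word in the free group -/
def pw (u : List (Fin 3)) : FreeGroup (Fin 3) := (u.map FreeGroup.of).prod

theorem pw_nil : pw [] = 1 := rfl
theorem pw_cons (x : Fin 3) (u : List (Fin 3)) : pw (x :: u) = FreeGroup.of x * pw u := by
  simp [pw]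
theorem pw_append (u v : List (Fin 3)) : pw (u ++ v) = pw u * pw v := by
  simp [pw]

/-- the substitution as an endomorphism -/
def sg3 : FreeGroup (Fin 3) →* FreeGroup (Fin 3) := FreeGroup.lift fun x => pw (sb x)

theorem sg3_pw (u : List (Fin 3)) : sg3 (pw u) = pw (sub u) := by
  induction u with
  | nil => simp [pw_nil, sub_nil]
  | cons x u ih =>
    rw [pw_cons, _root_.map_mul, ih, sub_cons, pw_append]
    simp [sg3]

theorem pw_sub (u : List (Fin 3)) (hu : u ≠ []) : pw (sub u) = FreeGroup.of 2 * pw (hat u) := by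
  rw [sub_eq u hu, pw_cons]

/-- product of the pairs -/
def evp : PL → FreeGroup (Fin 3)
  | [] => 1
  | p :: l => (pw p.1)⁻¹ * pw p.2 * evp l

/-- evaluation of an alternating word -/
def ev (u : List (Fin 3)) (l : PL) (v : List (Fin 3)) : FreeGroup (Fin 3) :=
  pw u * evp l * (pw v)⁻¹

/-! ## signed words -/

def ps (u : List (Fin 3)) : List (Fin 3 × Bool) := u.map fun x => (x, true)
def ng (u : List (Fin 3)) : List (Fin 3 × Bool) := u.reverse.map fun x => (x, false)

theorem mk_ps (u : List (Fin 3)) : FreeGroup.mk (ps u) = pw u := by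
  induction u with
  | nil => rfl
  | cons x u ih =>
    rw [pw_cons, ← ih, FreeGroup.of, FreeGroup.mul_mk]
    rfl

theorem ng_eq (u : List (Fin 3)) : ng u = FreeGroup.invRev (ps u) := by
  simp [ng, ps, FreeGroup.invRev]

theorem mk_ng (u : List (Fin 3)) : FreeGroup.mk (ng u) = (pw u)⁻¹ := by
  rw [ng_eq, ← FreeGroup.inv_mk, mk_ps]

def wdt : PL → List (Fin 3) → List (Fin 3 × Bool)
  | [], v => ng v
  | p :: l, v => ng p.1 ++ (ps p.2 ++ wdt l v)

theorem mk_wdt (l : PL) (v : List (Fin 3)) : FreeGroup.mk (wdt l v) = evp l * (pw v)⁻¹ := by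
  induction l with
  | nil => simp [wdt, evp, mk_ng]
  | cons p l ih =>
    rw [wdt, ← FreeGroup.mul_mk, ← FreeGroup.mul_mk, ih, mk_ng, mk_ps, evp]
    group

theorem mk_wd (u : List (Fin 3)) (l : PL) (v : List (Fin 3)) :
    FreeGroup.mk (ps u ++ wdt l v) = ev u l v := by
  rw [← FreeGroup.mul_mk, mk_wdt, mk_ps, ev, mul_assoc]

/-- no cancellation -/
def ok : List (Fin 3) → PL → List (Fin 3) → Prop
  | u, [], v => u = [] ∨ v = [] ∨ u.getLast? ≠ v.getLast?
  | u, p :: l, v => p.1 ≠ [] ∧ p.2 ≠ [] ∧ (u = [] ∨ u.getLast? ≠ p.1.getLast?) ∧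
      p.1.head? ≠ p.2.head? ∧ ok p.2 l v

theorem ps_ne (u : List (Fin 3)) (h : u ≠ []) : ps u ≠ [] := by simpa [ps] using h
theorem ng_ne (u : List (Fin 3)) (h : u ≠ []) : ng u ≠ [] := by simpa [ng] using h

theorem red_ps (u : List (Fin 3)) : FreeGroup.IsReduced (ps u) := by
  rw [FreeGroup.IsReduced, ps, List.isChain_map]
  simp only [implies_true]
  induction u with
  | nil => simp
  | cons x u ih => cases u with
    | nil => simp
    | cons y u => simpa using ih

theorem red_ng (u : List (Fin 3)) : FreeGroup.IsReduced (ng u) := by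
  rw [FreeGroup.IsReduced, ng, List.isChain_map]
  simp only [implies_true]
  generalize u.reverse = w
  cases w with
    | nil => simp
    | cons y u => induction u generalizing y with
      | nil => simp
      | cons x u ih => simpa using ih x

theorem junction (u v : List (Fin 3)) (w : List (Fin 3 × Bool))
    (h1 : FreeGroup.IsReduced (ng v ++ w)) (hvy : v ≠ []) (h : u = [] ∨ u.getLast? ≠ v.getLast?) :
    FreeGroup.IsReduced (ps u ++ (ng v ++ w)) := by
  rw [FreeGroup.IsReduced, List.isChain_append]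
  refine ⟨red_ps u, h1, ?_⟩
  intro x hx y hy
  rcases h with h | h
  · subst h; simp [ps] at hx
  · rw [ps, List.getLast?_map] at hx
    rw [List.head?_append_of_ne_nil _ (ng_ne v hvy), ng, List.head?_map, List.head?_reverse] at hy
    simp only [Option.mem_def, Option.map_eq_some_iff] at hx hy
    obtain ⟨a, ha, rfl⟩ := hx
    obtain ⟨b, hb, rfl⟩ := hy
    intro hab
    simp only at hab
    subst hab
    exact absurd (ha.trans hb.symm) h

theorem junction2 (u v : List (Fin 3)) (w : List (Fin 3 × Bool))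
    (h1 : FreeGroup.IsReduced (ps v ++ w)) (hvy : v ≠ []) (h : u.head? ≠ v.head?) :
    FreeGroup.IsReduced (ng u ++ (ps v ++ w)) := by
  rw [FreeGroup.IsReduced, List.isChain_append]
  refine ⟨red_ng u, h1, ?_⟩
  intro x hx y hy
  rw [ng, List.getLast?_map, List.getLast?_reverse] at hx
  rw [List.head?_append_of_ne_nil _ (ps_ne v hvy), ps, List.head?_map] at hy
  simp only [Option.mem_def, Option.map_eq_some_iff] at hx hy
  obtain ⟨a, ha, rfl⟩ := hx
  obtain ⟨b, hb, rfl⟩ := hy
  intro hab
  simp only at hab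
  subst hab
  exact absurd (ha.trans hb.symm) h

theorem red_wd (l : PL) : ∀ (u v : List (Fin 3)), ok u l v →
    FreeGroup.IsReduced (ps u ++ wdt l v) := by
  induction l with
  | nil =>
    intro u v h
    simp only [ok] at h
    rw [wdt]
    by_cases hvy : v = []
    · subst hvy
      simp only [ng, List.reverse_nil, List.map_nil, List.append_nil]
      exact red_ps u
    · have := junction u v [] (by rw [List.append_nil]; exact red_ng v) hvy (by tauto)
      rwa [List.append_nil] at this
  | cons p l ih =>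
    intro u v h
    obtain ⟨h1, h2, h3, h4, h5⟩ := h
    rw [wdt]
    exact junction u p.1 _ (junction2 p.1 p.2 _ (ih p.2 v h5) h2 h4) h1 h3

theorem toWord_ev (u : List (Fin 3)) (l : PL) (v : List (Fin 3)) (h : ok u l v) :
    (ev u l v).toWord = ps u ++ wdt l v := by
  rw [← mk_wd, FreeGroup.toWord_mk, (red_wd l u v h).reduce_eq]

/-! ## weights -/

/-- weight of the pairs -/
noncomputable def wp : PL → ℝ
  | [] => 0
  | p :: l => wu p.1 + wu p.2 + wp l

theorem wsum_ps (u : List (Fin 3)) : ((ps u).map fun p => wt3 p.1).sum = wu u := by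
  simp [ps, wu, Function.comp_def]

theorem wsum_ng (u : List (Fin 3)) : ((ng u).map fun p => wt3 p.1).sum = wu u := by
  simp only [ng, List.map_map, Function.comp_def]
  rw [wu, List.map_reverse, List.sum_reverse]

theorem wsum_wdt (l : PL) (v : List (Fin 3)) :
    ((wdt l v).map fun p => wt3 p.1).sum = wp l + wu v := by
  induction l with
  | nil => simp [wdt, wp, wsum_ng]
  | cons p l ih =>
    rw [wdt, List.map_append, List.sum_append, List.map_append, List.sum_append, ih, wsum_ng,
      wsum_ps, wp]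
    ring

theorem wl_ev (u : List (Fin 3)) (l : PL) (v : List (Fin 3)) (h : ok u l v) :
    wl wt3 (ev u l v) = wu u + wp l + wu v := by
  rw [wl, toWord_ev u l v h, List.map_append, List.sum_append, wsum_wdt, wsum_ps]
  ring

/-! ## the substitution step -/

def hatp (l : PL) : PL := l.map fun p => (hat p.1, hat p.2)

/-- all words of the pairs are heavy -/
def hvy (l : PL) : Prop := ∀ p ∈ l, bt ^ 3 < wu p.1 ∧ bt ^ 3 < wu p.2

theorem ne_of_hv (u : List (Fin 3)) (h : bt ^ 3 < wu u) : u ≠ [] := by
  rintro rfl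
  rw [wu_nil] at h
  have := pow_pos bt_pos 3
  linarith

theorem hv_hat (u : List (Fin 3)) (h : bt ^ 3 < wu u) : bt ^ 3 < wu (hat u) := by
  have h1 := wu_hat' u (ne_of_hv u h)
  have h2 : 0 < bt * (wu u - bt ^ 3) := mul_pos bt_pos (by linarith)
  linarith

theorem hv_hatp (l : PL) (h : hvy l) : hvy (hatp l) := by
  intro p hp
  rw [hatp, List.mem_map] at hp
  obtain ⟨q, hq, rfl⟩ := hp
  exact ⟨hv_hat _ (h q hq).1, hv_hat _ (h q hq).2⟩

theorem sg3_evp (l : PL) (h : hvy l) : sg3 (evp l) = evp (hatp l) := by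
  induction l with
  | nil => simp [evp, hatp]
  | cons p l ih =>
    have hp := h p (by simp)
    have ih' := ih fun q hq => h q (by simp [hq])
    rw [evp, _root_.map_mul, _root_.map_mul, _root_.map_inv, sg3_pw, sg3_pw, pw_sub _ (ne_of_hv _ hp.1),
      pw_sub _ (ne_of_hv _ hp.2), ih']
    simp only [hatp, List.map_cons, evp]
    group

theorem sg3_ev (u : List (Fin 3)) (l : PL) (v : List (Fin 3)) (h : hvy l) :
    sg3 (ev u l v) = ev (sub u) (hatp l) (sub v) := by
  rw [ev, _root_.map_mul, _root_.map_mul, _root_.map_inv, sg3_evp l h, sg3_pw, sg3_pw, ev]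

theorem last_ne {a b : Option (Fin 3)} (h : a ≠ b) : a.map ph ≠ b.map ph := by
  intro h'
  exact h (Option.map_injective ph_inj h')

theorem ok_step (l : PL) : ∀ (u v u' : List (Fin 3)), ok u l v → hvy l →
    (u' = [] ↔ u = []) → u'.getLast? = u.getLast?.map ph →
    ok u' (hatp l) (sub v) := by
  induction l with
  | nil =>
    intro u v u' h _ h1 h2
    simp only [ok, hatp, List.map_nil] at h ⊢
    rcases h with h | h | h
    · left; exact h1.mpr h
    · right; left; rw [h, sub_nil]
    · right; right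
      rw [h2, getLast_sub]
      exact last_ne h
  | cons p l ih =>
    intro u v u' h hh h1 h2
    obtain ⟨k1, k2, k3, k4, k5⟩ := h
    have hp := hh p (by simp)
    have q1 : hat p.1 ≠ [] := ne_of_hv _ (hv_hat _ hp.1)
    have q2 : hat p.2 ≠ [] := ne_of_hv _ (hv_hat _ hp.2)
    simp only [ok, hatp, List.map_cons]
    refine ⟨q1, q2, ?_, ?_, ?_⟩
    · rcases k3 with k3 | k3
      · left; exact h1.mpr k3
      · right
        rw [h2, getLast_hat _ q1]
        exact last_ne k3
    · rw [head_hat _ q1, head_hat _ q2]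
      exact last_ne k4
    · exact ih p.2 v (hat p.2) k5 (fun q hq => hh q (by simp [hq]))
        ⟨fun h => absurd h q2, fun h => absurd h k2⟩ (getLast_hat _ q2)

theorem ok_sub (u : List (Fin 3)) (l : PL) (v : List (Fin 3)) (h : ok u l v) (hh : hvy l) :
    ok (sub u) (hatp l) (sub v) :=
  ok_step l u v (sub u) h hh ⟨fun h => by by_contra h2; exact sub_ne u h2 h, fun h => by
    rw [h, sub_nil]⟩ (getLast_sub u)

/-- the reduced weight -/
noncomputable def wr : PL → ℝ
  | [] => 0
  | p :: l => (wu p.1 - bt ^ 3) + (wu p.2 - bt ^ 3) + wr l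

theorem wp_eq (l : PL) : wp l = wr l + 2 * l.length * bt ^ 3 := by
  induction l with
  | nil => simp [wp, wr]
  | cons p l ih =>
    rw [wp, wr, ih, List.length_cons]
    push_cast
    ring

theorem wr_hatp (l : PL) (h : hvy l) : wr (hatp l) = bt * wr l := by
  induction l with
  | nil => simp [wr, hatp]
  | cons p l ih =>
    have hp := h p (by simp)
    have ih' := ih fun q hq => h q (by simp [hq])
    simp only [hatp, List.map_cons, wr] at ih' ⊢
    rw [ih', wu_hat' _ (ne_of_hv _ hp.1), wu_hat' _ (ne_of_hv _ hp.2)]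
    ring

/-- weighted length of the iterates -/
theorem wl_iter (n : ℕ) : ∀ (u : List (Fin 3)) (l : PL) (v : List (Fin 3)), ok u l v → hvy l →
    wl wt3 (sg3^[n] (ev u l v)) = bt ^ n * (wu u + wr l + wu v) + 2 * l.length * bt ^ 3 := by
  induction n with
  | zero =>
    intro u l v h _
    rw [Function.iterate_zero, id, wl_ev u l v h, wp_eq]
    ring
  | succ n ih =>
    intro u l v h hh
    rw [Function.iterate_succ_apply, sg3_ev u l v hh, ih _ _ _ (ok_sub u l v h hh) (hv_hatp l hh),
      wr_hatp l hh, wu_sub, wu_sub]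
    simp only [hatp, List.length_map]
    ring

end Pool.Agent.LF.MM
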