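import Pool.Agent.Lib.LF.Defs

/-!
# C43 block M: definitions

`wl w g`: weighted length of the reduced word of `g`.
`M1`: weighted lengths are 0-hyperbolic (helper72).
-/

set_option autoImplicit false

namespace Pool.Agent.LF.MM

/-- weighted word length -/
def wl {α : Type} [DecidableEq α] (w : α → ℝ) (g : FreeGroup α) : ℝ :=
  (g.toWord.map fun p => w p.1).sum

/-- M1 (to be proved in `M/Wl.lean`): basic facts on weighted length -/
def S_M1 : Prop :=
  ∀ (α : Type) [DecidableEq α] (w : α → ℝ), (∀ a, 0 ≤ w a) →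
    (wl w 1 = 0) ∧ (∀ g, 0 ≤ wl w g) ∧ (∀ g, wl w g⁻¹ = wl w g) ∧
    (∀ g h, wl w (g * h) ≤ wl w g + wl w h) ∧
    (∀ a b c d : FreeGroup α, wl w (a⁻¹ * b) + wl w (c⁻¹ * d) ≤
      max (wl w (a⁻¹ * c) + wl w (b⁻¹ * d)) (wl w (a⁻¹ * d) + wl w (b⁻¹ * c)))

end Pool.Agent.LF.MM
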