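import Pool.Agent.Lib.LF.M.Alt

/-!
# C43 block M: the limit length function
-/

set_option autoImplicit false
set_option linter.unusedSectionVars false

namespace Pool.Agent.LF.MM

open Filter Topology

section gen

variable {α : Type} [DecidableEq α] (w : α → ℝ) (σ : FreeGroup α →* FreeGroup α) (b : ℝ)

/-- the limit length function -/
noncomputable def LL (g : FreeGroup α) : ℝ := ⨅ n : ℕ, wl w (σ^[n] g) / b ^ n

theorem iter_mul (n : ℕ) (g h : FreeGroup α) : σ^[n] (g * h) = σ^[n] g * σ^[n] h :=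
  iterate_map_mul σ n g h

theorem iter_inv (n : ℕ) (g : FreeGroup α) : σ^[n] g⁻¹ = (σ^[n] g)⁻¹ :=
  iterate_map_inv σ n g

theorem iter_one (n : ℕ) : σ^[n] 1 = 1 := iterate_map_one σ n

theorem iter_pow (n : ℕ) (g : FreeGroup α) (k : ℕ) : σ^[n] (g ^ k) = (σ^[n] g) ^ k :=
  iterate_map_pow σ n g k

variable (h1 : S_M1) (hw : ∀ a, 0 ≤ w a) (hb : 0 < b)
  (hs : ∀ a, wl w (σ (FreeGroup.of a)) ≤ b * w a)

include h1 hw hs in
theorem wl_step_mk (l : List (α × Bool)) :
    wl w (σ (FreeGroup.mk l)) ≤ b * (l.map fun p => w p.1).sum := by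
  obtain ⟨m1, m2, m3, m4, m5⟩ := h1 α w hw
  induction l with
  | nil =>
    have : (FreeGroup.mk ([] : List (α × Bool))) = 1 := rfl
    rw [this, map_one, m1]
    simp
  | cons p l ih =>
    have e : FreeGroup.mk (p :: l) = FreeGroup.mk [p] * FreeGroup.mk l := by
      rw [FreeGroup.mul_mk]; rfl
    rw [e, map_mul]
    refine (m4 _ _).trans ?_
    have hp : wl w (σ (FreeGroup.mk [p])) ≤ b * w p.1 := by
      rcases p with ⟨a, c⟩
      cases c
      · have : FreeGroup.mk [(a, false)] = (FreeGroup.of a)⁻¹ := rfl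
        rw [this, map_inv, m3]
        exact hs a
      · exact hs a
    rw [List.map_cons, List.sum_cons]
    linarith

include h1 hw hs in
theorem wl_step (g : FreeGroup α) : wl w (σ g) ≤ b * wl w g := by
  have := wl_step_mk w σ b h1 hw hs g.toWord
  rwa [FreeGroup.mk_toWord] at this

include h1 hw hs hb in
theorem LL_anti (g : FreeGroup α) : Antitone fun n : ℕ => wl w (σ^[n] g) / b ^ n := by
  apply antitone_nat_of_succ_le
  intro n
  rw [Function.iterate_succ_apply', div_le_div_iff₀ (pow_pos hb _) (pow_pos hb _)]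
  have := wl_step w σ b h1 hw hs (σ^[n] g)
  have h2 := pow_pos hb n
  rw [pow_succ]
  nlinarith

include h1 hw in
theorem wl_nonneg' (g : FreeGroup α) : 0 ≤ wl w g := (h1 α w hw).2.1 g

include h1 hw hs hb in
theorem LL_tendsto (g : FreeGroup α) :
    Tendsto (fun n : ℕ => wl w (σ^[n] g) / b ^ n) atTop (𝓝 (LL w σ b g)) := by
  apply tendsto_atTop_ciInf (LL_anti w σ b h1 hw hb hs g)
  refine ⟨0, ?_⟩
  rintro _ ⟨n, rfl⟩
  exact div_nonneg (wl_nonneg' w h1 hw _) (pow_pos hb n).le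

include h1 hw hs hb in
theorem LL_le (g : FreeGroup α) (n : ℕ) : LL w σ b g ≤ wl w (σ^[n] g) / b ^ n := by
  apply ciInf_le
  refine ⟨0, ?_⟩
  rintro _ ⟨n, rfl⟩
  exact div_nonneg (wl_nonneg' w h1 hw _) (pow_pos hb n).le

include h1 hw hs hb in
theorem LL_one : LL w σ b 1 = 0 := by
  refine tendsto_nhds_unique (LL_tendsto w σ b h1 hw hb hs 1) ?_
  have : (fun n : ℕ => wl w (σ^[n] 1) / b ^ n) = fun _ => (0 : ℝ) := by
    funext n
    rw [iter_one, (h1 α w hw).1, zero_div]
  rw [this]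
  exact tendsto_const_nhds

include h1 hw hs hb in
theorem LL_nonneg (g : FreeGroup α) : 0 ≤ LL w σ b g :=
  ge_of_tendsto' (LL_tendsto w σ b h1 hw hb hs g) fun n =>
    div_nonneg (wl_nonneg' w h1 hw _) (pow_pos hb n).le

include h1 hw in
theorem LL_inv (g : FreeGroup α) : LL w σ b g⁻¹ = LL w σ b g := by
  unfold LL
  congr 1
  funext n
  rw [iter_inv, (h1 α w hw).2.2.1]

include h1 hw hs hb in
theorem LL_mul (g h : FreeGroup α) : LL w σ b (g * h) ≤ LL w σ b g + LL w σ b h := by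
  refine le_of_tendsto_of_tendsto' (LL_tendsto w σ b h1 hw hb hs (g * h))
    ((LL_tendsto w σ b h1 hw hb hs g).add (LL_tendsto w σ b h1 hw hb hs h)) fun n => ?_
  rw [iter_mul, ← add_div]
  exact div_le_div_of_nonneg_right ((h1 α w hw).2.2.2.1 _ _) (pow_pos hb n).le

include h1 hw hs hb in
theorem LL_hyp (x y z t : FreeGroup α) :
    LL w σ b (x⁻¹ * y) + LL w σ b (z⁻¹ * t) ≤
      max (LL w σ b (x⁻¹ * z) + LL w σ b (y⁻¹ * t)) (LL w σ b (x⁻¹ * t) + LL w σ b (y⁻¹ * z)) := by
  have T := LL_tendsto w σ b h1 hw hb hs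
  refine le_of_tendsto_of_tendsto' ((T _).add (T _))
    (((T _).add (T _)).max ((T _).add (T _))) fun n => ?_
  simp only [iter_mul, iter_inv]
  have h5 := (h1 α w hw).2.2.2.2 (σ^[n] x) (σ^[n] y) (σ^[n] z) (σ^[n] t)
  have hp := pow_pos hb n
  rw [← add_div, ← add_div, ← add_div]
  rw [max_div_div_right hp.le]
  exact div_le_div_of_nonneg_right h5 hp.le

include h1 hw hs hb in
theorem LL_of_eq (g : FreeGroup α) (A B : ℝ) (hb1 : 1 < b)
    (h : ∀ n, wl w (σ^[n] g) = b ^ n * A + B) : LL w σ b g = A := by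
  refine tendsto_nhds_unique (LL_tendsto w σ b h1 hw hb hs g) ?_
  have e : (fun n : ℕ => wl w (σ^[n] g) / b ^ n) = fun n => A + B * (1 / b) ^ n := by
    funext n
    have hp := (pow_pos hb n).ne'
    rw [h n, one_div, inv_pow]
    field_simp
  rw [e]
  have hb' : |1 / b| < 1 := by
    rw [abs_of_pos (by positivity), div_lt_one hb]
    exact hb1
  have := (tendsto_pow_atTop_nhds_zero_of_abs_lt_one hb').const_mul B
  simpa using this.const_add A

end gen

/-! ## rank 3 -/

noncomputable def L3 : FreeGroup (Fin 3) → ℝ := LL wt3 sg3 bt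

theorem wt3_nonneg (x : Fin 3) : 0 ≤ wt3 x := by have := wt3_pos x; linarith

theorem wl_pw (h : List (Fin 3)) : wl wt3 (pw h) = wu h := by
  have := wl_ev h [] [] (by simp [ok])
  simpa [ev, evp, pw_nil, wp, wu_nil] using this

theorem sg3_of_le (a : Fin 3) : wl wt3 (sg3 (FreeGroup.of a)) ≤ bt * wt3 a := by
  have : sg3 (FreeGroup.of a) = pw (sb a) := by simp [sg3]
  rw [this, wl_pw, wu_sb]

/-- value of `L3` on alternating words -/
theorem L3_ev (h1 : S_M1) (u : List (Fin 3)) (l : PL) (v : List (Fin 3)) (h : ok u l v)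
    (hh : hvy l) : L3 (ev u l v) = wu u + wr l + wu v := by
  apply LL_of_eq wt3 sg3 bt h1 wt3_nonneg bt_pos sg3_of_le _ _ (2 * l.length * bt ^ 3) bt_one
  intro n
  exact wl_iter n u l v h hh

end Pool.Agent.LF.MM
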