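import Pool.Agent.Lib.LF.M.Defs

/-!
# C43 block M: positive words, the substitution, weights
-/

set_option autoImplicit false

namespace Pool.Agent.LF.MM

/-- the tribonacci constant -/
theorem exists_bt : ∃ b : ℝ, b ^ 3 = b ^ 2 + b + 1 ∧ (1.8 : ℝ) < b ∧ b < 1.9 := by
  have hc : ContinuousOn (fun x : ℝ => x ^ 3 - x ^ 2 - x - 1) (Set.Icc 1.8 1.9) := by
    fun_prop
  have h := intermediate_value_Ioo (by norm_num : (1.8 : ℝ) ≤ 1.9) hc
  have h0 : (0 : ℝ) ∈ Set.Ioo ((fun x : ℝ => x ^ 3 - x ^ 2 - x - 1) 1.8)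
      ((fun x : ℝ => x ^ 3 - x ^ 2 - x - 1) 1.9) := by
    constructor <;> norm_num
  obtain ⟨b, hb, hb0⟩ := h h0
  exact ⟨b, by simp only at hb0; linarith, hb.1, hb.2⟩

noncomputable def bt : ℝ := Classical.choose exists_bt

theorem bt_cube : bt ^ 3 = bt ^ 2 + bt + 1 := (Classical.choose_spec exists_bt).1
theorem bt_lo : (1.8 : ℝ) < bt := (Classical.choose_spec exists_bt).2.1
theorem bt_hi : bt < 1.9 := (Classical.choose_spec exists_bt).2.2
theorem bt_pos : 0 < bt := by have := bt_lo; linarith
theorem bt_one : 1 < bt := by have := bt_lo; linarith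

/-- images of the letters -/
def sb : Fin 3 → List (Fin 3) := ![[2], [2, 0], [2, 1]]

/-- the substitution on positive words -/
def sub (u : List (Fin 3)) : List (Fin 3) := u.flatMap sb

/-- substitution with the first letter removed -/
def hat (u : List (Fin 3)) : List (Fin 3) := (sub u).tail

noncomputable def wt3 : Fin 3 → ℝ := ![bt + 1, bt ^ 2 + 1, bt ^ 2 + bt]

/-- weight of a positive word -/
noncomputable def wu (u : List (Fin 3)) : ℝ := (u.map wt3).sum

theorem wt3_pos (x : Fin 3) : 2.8 < wt3 x := by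
  have h1 := bt_lo
  have h2 : (3.24 : ℝ) < bt ^ 2 := by nlinarith
  fin_cases x <;> simp [wt3] <;> linarith

theorem wu_nil : wu [] = 0 := rfl
theorem wu_cons (x : Fin 3) (u : List (Fin 3)) : wu (x :: u) = wt3 x + wu u := by
  simp [wu]
theorem wu_append (u v : List (Fin 3)) : wu (u ++ v) = wu u + wu v := by
  simp [wu]

theorem wu_nonneg (u : List (Fin 3)) : 0 ≤ wu u := by
  induction u with
  | nil => simp [wu_nil]
  | cons x u ih => rw [wu_cons]; have := wt3_pos x; linarith

theorem sub_nil : sub [] = [] := rfl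
theorem sub_cons (x : Fin 3) (u : List (Fin 3)) : sub (x :: u) = sb x ++ sub u := by
  simp [sub]
theorem sub_append (u v : List (Fin 3)) : sub (u ++ v) = sub u ++ sub v := by
  simp [sub]

theorem wu_sb (x : Fin 3) : wu (sb x) = bt * wt3 x := by
  have h := bt_cube
  fin_cases x <;> simp [sb, wu, wt3] <;> nlinarith

theorem wu_sub (u : List (Fin 3)) : wu (sub u) = bt * wu u := by
  induction u with
  | nil => simp [sub_nil, wu_nil]
  | cons x u ih => rw [sub_cons, wu_append, wu_sb, ih, wu_cons]; ring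

theorem sub_eq (u : List (Fin 3)) (hu : u ≠ []) : sub u = 2 :: hat u := by
  cases u with
  | nil => exact absurd rfl hu
  | cons x u =>
    rw [hat, sub_cons]
    fin_cases x <;> simp [sb]

theorem wu_hat (u : List (Fin 3)) (hu : u ≠ []) : wu (hat u) = bt * wu u - (bt ^ 2 + bt) := by
  have h := wu_sub u
  rw [sub_eq u hu, wu_cons] at h
  have : wt3 2 = bt ^ 2 + bt := by simp [wt3]
  rw [this] at h
  linarith

theorem wu_hat' (u : List (Fin 3)) (hu : u ≠ []) : wu (hat u) - bt ^ 3 = bt * (wu u - bt ^ 3) := by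
  rw [wu_hat u hu]
  have h := bt_cube
  have h4 : bt ^ 4 = bt ^ 3 + bt ^ 2 + bt := by
    have : bt ^ 4 = bt * bt ^ 3 := by ring
    rw [this, h]; ring_nf
    rw [h]; ring
  have : bt * bt ^ 3 = bt ^ 4 := by ring
  rw [mul_sub, this, h4]; ring

/-- weights of words never equal `bt ^ 3` -/
theorem wu_ne (u : List (Fin 3)) : wu u ≠ bt ^ 3 := by
  have h := bt_cube
  have h1 := bt_lo
  have h2 := bt_hi
  have h3 : (3.24 : ℝ) < bt ^ 2 := by nlinarith
  have h4 : bt ^ 2 < 3.61 := by nlinarith
  match u with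
  | [] => rw [wu_nil]; intro hh; nlinarith
  | [x] =>
    rw [wu_cons, wu_nil]
    intro hh
    fin_cases x <;> simp [wt3] at hh <;> nlinarith
  | [x, y] =>
    rw [wu_cons, wu_cons, wu_nil]
    intro hh
    fin_cases x <;> fin_cases y <;> simp [wt3] at hh <;> nlinarith
  | x :: y :: z :: v =>
    rw [wu_cons, wu_cons, wu_cons]
    have a1 := wt3_pos x
    have a2 := wt3_pos y
    have a3 := wt3_pos z
    have a4 := wu_nonneg v
    intro hh
    linarith

theorem wu_hat_iter (u : List (Fin 3)) (n : ℕ) (h : ∀ m, m < n → hat^[m] u ≠ []) :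
    wu (hat^[n] u) = bt ^ 3 + bt ^ n * (wu u - bt ^ 3) := by
  induction n with
  | zero => simp
  | succ n ih =>
    have h1 := ih fun m hm => h m (Nat.lt_succ_of_lt hm)
    have h2 := wu_hat' (hat^[n] u) (h n (Nat.lt_succ_self n))
    rw [Function.iterate_succ_apply']
    rw [h1] at h2
    have h3 : bt ^ (n + 1) * (wu u - bt ^ 3) = bt * (bt ^ n * (wu u - bt ^ 3)) := by ring
    rw [h3]
    linarith

/-- heavy words persist -/
theorem hat_ne_of_heavy (u : List (Fin 3)) (hu : bt ^ 3 < wu u) (n : ℕ) : hat^[n] u ≠ [] := by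
  induction n using Nat.strong_induction_on with
  | _ n ih =>
    intro hh
    have h1 := wu_hat_iter u n ih
    rw [hh, wu_nil] at h1
    have h2 : 0 < bt ^ n * (wu u - bt ^ 3) := mul_pos (pow_pos bt_pos n) (by linarith)
    have h3 : 0 < bt ^ 3 := pow_pos bt_pos 3
    linarith

/-- persistent words are heavy -/
theorem heavy_of_hat_ne (u : List (Fin 3)) (h : ∀ n, hat^[n] u ≠ []) : bt ^ 3 < wu u := by
  by_contra hcon
  have hlt : wu u - bt ^ 3 < 0 := by
    have := lt_of_le_of_ne (not_lt.mp hcon) (wu_ne u)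
    linarith
  obtain ⟨n, hn⟩ := pow_unbounded_of_one_lt (bt ^ 3 / (bt ^ 3 - wu u)) bt_one
  have h1 := wu_hat_iter u n fun m _ => h m
  have h2 := wu_nonneg (hat^[n] u)
  have h3 : 0 < bt ^ 3 - wu u := by linarith
  rw [div_lt_iff₀ h3] at hn
  rw [h1] at h2
  nlinarith

/-! ## first and last letters -/

def ph : Fin 3 → Fin 3 := ![2, 0, 1]

theorem ph_inj : Function.Injective ph := by decide

theorem sub_getLast (u : List (Fin 3)) (x : Fin 3) : (sub (u ++ [x])).getLast? = some (ph x) := by
  rw [sub_append, sub_cons, sub_nil, List.append_nil]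
  fin_cases x <;> simp [sb, ph]

theorem getLast_sub (u : List (Fin 3)) : (sub u).getLast? = u.getLast?.map ph := by
  rcases List.eq_nil_or_concat u with h | ⟨v, x, h⟩
  · subst h; simp [sub_nil]
  · rw [h, List.concat_eq_append, sub_getLast]
    simp

theorem getLast_hat (u : List (Fin 3)) (h : hat u ≠ []) : (hat u).getLast? = u.getLast?.map ph := by
  rw [← getLast_sub]
  have hu : u ≠ [] := by
    rintro rfl; exact h rfl
  rw [sub_eq u hu]
  cases hh : hat u with
  | nil => exact absurd hh h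
  | cons a t => simp [List.getLast?_cons]

theorem head_hat (u : List (Fin 3)) (h : hat u ≠ []) : (hat u).head? = u.head?.map ph := by
  cases u with
  | nil => exact absurd rfl h
  | cons x u =>
    have key : hat (x :: u) = (sb x).tail ++ sub u := by
      rw [hat, sub_cons]
      fin_cases x <;> simp [sb]
    rw [key] at h ⊢
    fin_cases x
    · simp only [sb, ph] at h ⊢
      simp at h ⊢
      have hu : u ≠ [] := by rintro rfl; exact h rfl
      rw [sub_eq u hu]; simp
    · simp [sb, ph]
    · simp [sb, ph]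

theorem sub_ne (u : List (Fin 3)) (h : u ≠ []) : sub u ≠ [] := by
  rw [sub_eq u h]; simp

end Pool.Agent.LF.MM
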