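import Pool.Agent.Lib.LF.M.Unb3b

/-!
# C43 block M: the free group of rank 9
-/

set_option autoImplicit false
set_option linter.unusedSectionVars false

namespace Pool.Agent.LF.MM

open Filter Topology

/-- embedding of the `j`-th factor -/
def em (j : Fin 3) : FreeGroup (Fin 3) →* FreeGroup Bs := FreeGroup.map fun X => (j, X)

def sg9 : FreeGroup Bs →* FreeGroup Bs := FreeGroup.lift fun p => em p.1 (pw (sb p.2))

noncomputable def wt9 : Bs → ℝ := fun p => (bt + 1) ^ (p.1 : ℕ) * wt3 p.2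

noncomputable def L9 : FreeGroup Bs → ℝ := LL wt9 sg9 bt

theorem em_inj (j : Fin 3) : Function.Injective (em j) := by
  apply FreeGroup.map_injective
  intro X Y h
  simpa using h

theorem sg9_em (j : Fin 3) (g : FreeGroup (Fin 3)) : sg9 (em j g) = em j (sg3 g) := by
  have : sg9.comp (em j) = (em j).comp sg3 := by
    apply FreeGroup.ext_hom
    intro X
    simp [sg9, em, sg3]
  exact DFunLike.congr_fun this g

theorem sg9_em_iter (j : Fin 3) (n : ℕ) (g : FreeGroup (Fin 3)) :
    sg9^[n] (em j g) = em j (sg3^[n] g) := by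
  induction n generalizing g with
  | zero => rfl
  | succ n ih => rw [Function.iterate_succ_apply, sg9_em, ih, Function.iterate_succ_apply]

def ml (j : Fin 3) (p : Fin 3 × Bool) : Bs × Bool := ((j, p.1), p.2)

theorem em_mk (j : Fin 3) (l : List (Fin 3 × Bool)) :
    em j (FreeGroup.mk l) = FreeGroup.mk (l.map (ml j)) := rfl

theorem red_map (j : Fin 3) (l : List (Fin 3 × Bool)) (h : FreeGroup.IsReduced l) :
    FreeGroup.IsReduced (l.map (ml j)) := by
  rw [FreeGroup.IsReduced, List.isChain_map]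
  refine List.IsChain.imp ?_ h
  intro a b hab hh
  exact hab (by simpa [ml] using hh)

theorem toWord_em (j : Fin 3) (g : FreeGroup (Fin 3)) :
    (em j g).toWord = g.toWord.map (ml j) := by
  have h := red_map j g.toWord FreeGroup.isReduced_toWord
  conv_lhs => rw [← FreeGroup.mk_toWord (x := g), em_mk, FreeGroup.toWord_mk, h.reduce_eq]

theorem wl_em (j : Fin 3) (g : FreeGroup (Fin 3)) :
    wl wt9 (em j g) = (bt + 1) ^ (j : ℕ) * wl wt3 g := by
  rw [wl, wl, toWord_em, List.map_map]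
  have : ((fun p : Bs × Bool => wt9 p.1) ∘ ml j) = fun p : Fin 3 × Bool =>
      (bt + 1) ^ (j : ℕ) * wt3 p.1 := by
    funext p; simp [ml, wt9]
  rw [this, List.sum_map_mul_left]

theorem wt9_nonneg (p : Bs) : 0 ≤ wt9 p := by
  have := wt3_nonneg p.2
  have := bt_pos
  unfold wt9; positivity

theorem sg9_of_le (a : Bs) : wl wt9 (sg9 (FreeGroup.of a)) ≤ bt * wt9 a := by
  have : sg9 (FreeGroup.of a) = em a.1 (pw (sb a.2)) := by simp [sg9]
  rw [this, wl_em, wl_pw, wu_sb, wt9]
  linarith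

section
variable (h1 : S_M1)

include h1 in
theorem L9_em (j : Fin 3) (g : FreeGroup (Fin 3)) : L9 (em j g) = (bt + 1) ^ (j : ℕ) * L3 g := by
  refine tendsto_nhds_unique (LL_tendsto wt9 sg9 bt h1 wt9_nonneg bt_pos sg9_of_le (em j g)) ?_
  have := (LL_tendsto wt3 sg3 bt h1 wt3_nonneg bt_pos sg3_of_le g).const_mul ((bt + 1) ^ (j : ℕ))
  refine this.congr fun n => ?_
  rw [sg9_em_iter, wl_em, mul_div_assoc]

include h1 in
theorem L3_pos (g : FreeGroup (Fin 3)) (hg : g ≠ 1) : 0 < L3 g := by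
  by_contra hcon
  have h0 : L3 g = 0 := le_antisymm (not_lt.mp hcon) (L3_nonneg h1 g)
  apply unb3 h1 g hg
  refine ⟨0, fun k => ?_⟩
  induction k with
  | zero => rw [pow_zero]; exact (LL_one wt3 sg3 bt h1 wt3_nonneg bt_pos sg3_of_le).le
  | succ k ih =>
    rw [pow_succ]
    have := L3_mul h1 (g ^ k) g
    linarith

include h1 in
theorem L9_em_pos (j : Fin 3) (g : FreeGroup (Fin 3)) (hg : g ≠ 1) : 0 < L9 (em j g) := by
  rw [L9_em h1]
  have := L3_pos h1 g hg
  have := bt_pos
  positivity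

/-! ## decomposition -/

/-- the reduced word of `g` starts with a letter of factor `j` -/
def hd (j : Fin 3) (g : FreeGroup Bs) : Prop := ∃ p, g.toWord.head? = some p ∧ p.1.1 = j

theorem hd_or (g : FreeGroup Bs) (hg : g ≠ 1) : ∃ j, hd j g := by
  cases h : g.toWord with
  | nil => exact absurd (FreeGroup.toWord_eq_nil_iff.mp h) hg
  | cons p l => exact ⟨p.1.1, p, by rw [h]; rfl, rfl⟩

theorem toWord_mul_of_red (x y : FreeGroup Bs) (h : FreeGroup.IsReduced (x.toWord ++ y.toWord)) :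
    (x * y).toWord = x.toWord ++ y.toWord := by
  rw [FreeGroup.toWord_mul, h.reduce_eq]

theorem all_fac_em (j : Fin 3) (g : FreeGroup (Fin 3)) (p : Bs × Bool)
    (hp : p ∈ (em j g).toWord) : p.1.1 = j := by
  rw [toWord_em, List.mem_map] at hp
  obtain ⟨q, _, rfl⟩ := hp
  rfl

theorem toWord_em_mul (j : Fin 3) (g : FreeGroup (Fin 3)) (h : FreeGroup Bs)
    (hh : h = 1 ∨ ∃ j', j' ≠ j ∧ hd j' h) :
    (em j g * h).toWord = (em j g).toWord ++ h.toWord := by
  rcases hh with rfl | ⟨j', hj, p, hp, hpj⟩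
  · simp
  · apply toWord_mul_of_red
    rw [FreeGroup.IsReduced, List.isChain_append]
    refine ⟨FreeGroup.isReduced_toWord, FreeGroup.isReduced_toWord, ?_⟩
    intro x hx y hy hxy
    have h2 : x.1.1 = j := all_fac_em j g x (List.mem_of_getLast? hx)
    rw [hp] at hy
    simp only [Option.mem_def, Option.some.injEq] at hy
    subst hy
    rw [hxy] at h2
    exact absurd (hpj.symm.trans h2) hj

/-- words with all letters in factor `j` come from `F_3` -/
theorem of_all (j : Fin 3) (l : List (Bs × Bool)) (h : ∀ p ∈ l, p.1.1 = j) :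
    FreeGroup.mk l = em j (FreeGroup.mk (l.map fun p => (p.1.2, p.2))) := by
  rw [em_mk, List.map_map]
  congr 1
  induction l with
  | nil => rfl
  | cons p l ih =>
    rw [List.map_cons, ← ih fun q hq => h q (by simp [hq])]
    have := h p (by simp)
    congr 1
    rcases p with ⟨⟨a, b⟩, c⟩
    simp only at this
    subst this
    rfl

theorem decomp (g : FreeGroup Bs) (j : Fin 3) (hg : hd j g) :
    ∃ (γ : FreeGroup (Fin 3)) (h : FreeGroup Bs), γ ≠ 1 ∧ g = em j γ * h ∧
      (h = 1 ∨ ∃ j', j' ≠ j ∧ hd j' h) ∧ h.toWord.length < g.toWord.length := by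
  obtain ⟨p, hp, hpj⟩ := hg
  set l := g.toWord with hl
  have hred : FreeGroup.IsReduced l := FreeGroup.isReduced_toWord
  let q : Bs × Bool → Bool := fun x => decide (x.1.1 = j)
  have hsplit : l.takeWhile q ++ l.dropWhile q = l := List.takeWhile_append_dropWhile
  have hA : ∀ x ∈ l.takeWhile q, x.1.1 = j := by
    intro x hx
    have := List.mem_takeWhile_imp hx
    simpa [q] using this
  have hredA : FreeGroup.IsReduced (l.takeWhile q) := by
    rw [← hsplit] at hred
    rw [FreeGroup.IsReduced, List.isChain_append] at hred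
    exact hred.1
  have hredB : FreeGroup.IsReduced (l.dropWhile q) := by
    rw [← hsplit] at hred
    rw [FreeGroup.IsReduced, List.isChain_append] at hred
    exact hred.2.1
  have hAne : l.takeWhile q ≠ [] := by
    cases hlc : l with
    | nil => rw [hlc] at hp; simp at hp
    | cons a t =>
      rw [hlc] at hp
      simp at hp
      subst hp
      rw [List.takeWhile_cons]
      simp [q, hpj]
  refine ⟨FreeGroup.mk ((l.takeWhile q).map fun p => (p.1.2, p.2)), FreeGroup.mk (l.dropWhile q),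
    ?_, ?_, ?_, ?_⟩
  · intro h1
    have h2 := of_all j _ hA
    rw [h1, map_one] at h2
    have h3 := congrArg FreeGroup.toWord h2
    rw [FreeGroup.toWord_mk, hredA.reduce_eq, FreeGroup.toWord_one] at h3
    exact hAne h3
  · rw [← of_all j _ hA, FreeGroup.mul_mk, hsplit, hl, FreeGroup.mk_toWord]
  · cases hB : l.dropWhile q with
    | nil => left; rfl
    | cons b t =>
      right
      refine ⟨b.1.1, ?_, b, ?_, rfl⟩
      · have h2 := List.head?_dropWhile_not q l
        rw [hB] at h2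
        simpa [q] using h2
      · rw [← hB, FreeGroup.toWord_mk, hredB.reduce_eq, hB]
        rfl
  · rw [FreeGroup.toWord_mk, hredB.reduce_eq]
    have h2 := congrArg List.length hsplit
    rw [List.length_append] at h2
    have h3 : 0 < (l.takeWhile q).length := List.length_pos_iff.mpr hAne
    omega

theorem sg3_ne (g : FreeGroup (Fin 3)) (hg : g ≠ 1) : sg3 g ≠ 1 := by
  intro h
  exact hg (sg3_inj (by rw [h, map_one]))

theorem hd_em (j : Fin 3) (g : FreeGroup (Fin 3)) (hg : g ≠ 1) (h : FreeGroup Bs)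
    (hh : h = 1 ∨ ∃ j', j' ≠ j ∧ hd j' h) : hd j (em j g * h) := by
  have h2 := toWord_em_mul j g h hh
  rw [toWord_em] at h2
  cases hl : g.toWord with
  | nil => exact absurd (FreeGroup.toWord_eq_nil_iff.mp hl) hg
  | cons p l =>
    rw [hl] at h2
    exact ⟨ml j p, by rw [h2]; rfl, rfl⟩

theorem hd_sg9 (m : ℕ) : ∀ (g : FreeGroup Bs) (j : Fin 3), g.toWord.length ≤ m → hd j g →
    hd j (sg9 g) := by
  induction m with
  | zero =>
    intro g j hm ⟨p, hp, _⟩
    have : g.toWord = [] := List.length_eq_zero_iff.mp (by omega)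
    rw [this] at hp
    simp at hp
  | succ m ih =>
    intro g j hm hg
    obtain ⟨γ, h, h2, h3, h4, h5⟩ := decomp g j hg
    rw [h3, map_mul, sg9_em]
    apply hd_em j _ (sg3_ne γ h2)
    rcases h4 with rfl | ⟨j', hj, h4⟩
    · left; rw [map_one]
    · right
      exact ⟨j', hj, ih h j' (by omega) h4⟩

theorem hd_iter (n : ℕ) (g : FreeGroup Bs) (j : Fin 3) (hg : hd j g) : hd j (sg9^[n] g) := by
  induction n with
  | zero => exact hg
  | succ n ih => rw [Function.iterate_succ_apply']; exact hd_sg9 _ _ j le_rfl ih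

include h1 in
theorem L9_nonneg (g : FreeGroup Bs) : 0 ≤ L9 g :=
  LL_nonneg wt9 sg9 bt h1 wt9_nonneg bt_pos sg9_of_le g

include h1 in
theorem L9_pos (g : FreeGroup Bs) (hg : g ≠ 1) : 0 < L9 g := by
  obtain ⟨j, hj⟩ := hd_or g hg
  obtain ⟨γ, h, h2, h3, h4, _⟩ := decomp g j hj
  refine (L9_em_pos h1 j γ h2).trans_le ?_
  refine le_of_tendsto_of_tendsto' (LL_tendsto wt9 sg9 bt h1 wt9_nonneg bt_pos sg9_of_le (em j γ))
    (LL_tendsto wt9 sg9 bt h1 wt9_nonneg bt_pos sg9_of_le g) fun n => ?_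
  apply div_le_div_of_nonneg_right _ (pow_pos bt_pos n).le
  have h6 : sg9^[n] h = 1 ∨ ∃ j', j' ≠ j ∧ hd j' (sg9^[n] h) := by
    rcases h4 with rfl | ⟨j', hj', h4⟩
    · left; exact iter_one sg9 n
    · right; exact ⟨j', hj', hd_iter n h j' h4⟩
  rw [h3, iter_mul, sg9_em_iter]
  have h7 := toWord_em_mul j (sg3^[n] γ) _ h6
  have h8 : wl wt9 (em j (sg3^[n] γ) * sg9^[n] h) = wl wt9 (em j (sg3^[n] γ)) +
      wl wt9 (sg9^[n] h) := by
    rw [wl, h7, List.map_append, List.sum_append]; rfl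
  rw [h8]
  have := wl_nonneg' wt9 h1 wt9_nonneg (sg9^[n] h)
  linarith

/-! ## powers of words with different end factors -/

theorem last_of_inv (j : Fin 3) (g : FreeGroup Bs) (h : hd j g⁻¹) (x : Bs × Bool)
    (hx : x ∈ g.toWord.getLast?) : x.1.1 = j := by
  obtain ⟨p, hp, hpj⟩ := h
  rw [FreeGroup.toWord_inv, FreeGroup.invRev, List.head?_reverse, List.getLast?_map] at hp
  simp only [Option.mem_def] at hx
  rw [hx] at hp
  simp at hp
  rw [← hp] at hpj
  exact hpj

theorem toWord_pow_mixed (g : FreeGroup Bs) (i j : Fin 3) (hij : i ≠ j) (hi : hd i g)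
    (hj : hd j g⁻¹) (k : ℕ) :
    (g ^ k).toWord = (List.replicate k g.toWord).flatten ∧ (k = 0 ∨ hd i (g ^ k)) := by
  induction k with
  | zero => simp
  | succ k ih =>
    have key : (g * g ^ k).toWord = g.toWord ++ (g ^ k).toWord := by
      rcases ih.2 with h0 | h0
      · subst h0; simp
      · apply toWord_mul_of_red
        rw [FreeGroup.IsReduced, List.isChain_append]
        refine ⟨FreeGroup.isReduced_toWord, FreeGroup.isReduced_toWord, ?_⟩
        intro x hx y hy hxy
        have h2 := last_of_inv j g hj x hx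
        obtain ⟨p, hp, hpi⟩ := h0
        rw [hp] at hy
        simp only [Option.mem_def, Option.some.injEq] at hy
        subst hy
        rw [hxy] at h2
        exact absurd (hpi.symm.trans h2) hij
    rw [pow_succ', key, ih.1, List.replicate_succ, List.flatten_cons]
    refine ⟨rfl, Or.inr ?_⟩
    obtain ⟨p, hp, hpi⟩ := hi
    refine ⟨p, ?_, hpi⟩
    rw [key]
    cases hl : g.toWord with
    | nil => rw [hl] at hp; simp at hp
    | cons a t => rw [hl] at hp; simpa using hp

theorem wl_pow_mixed (g : FreeGroup Bs) (i j : Fin 3) (hij : i ≠ j) (hi : hd i g)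
    (hj : hd j g⁻¹) (k : ℕ) : wl wt9 (g ^ k) = k * wl wt9 g := by
  have h2 := (toWord_pow_mixed g i j hij hi hj k).1
  rw [wl, h2, wl]
  clear h2
  induction k with
  | zero => simp
  | succ k ih =>
    rw [List.replicate_succ, List.flatten_cons, List.map_append, List.sum_append, ih]
    push_cast; ring

include h1 in
theorem L9_pow_mixed (g : FreeGroup Bs) (i j : Fin 3) (hij : i ≠ j) (hi : hd i g)
    (hj : hd j g⁻¹) (k : ℕ) : L9 (g ^ k) = k * L9 g := by
  refine tendsto_nhds_unique (LL_tendsto wt9 sg9 bt h1 wt9_nonneg bt_pos sg9_of_le (g ^ k)) ?_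
  have := (LL_tendsto wt9 sg9 bt h1 wt9_nonneg bt_pos sg9_of_le g).const_mul (k : ℝ)
  refine this.congr fun n => ?_
  rw [iter_pow, wl_pow_mixed _ i j hij (hd_iter n g i hi), mul_div_assoc]
  rw [← iter_inv]
  exact hd_iter n _ j hj

/-! ## boundedness -/

def Bd9 (g : FreeGroup Bs) : Prop := ∃ K : ℝ, ∀ k : ℕ, L9 (g ^ k) ≤ K

include h1 in
theorem L9_mul (g h : FreeGroup Bs) : L9 (g * h) ≤ L9 g + L9 h :=
  LL_mul wt9 sg9 bt h1 wt9_nonneg bt_pos sg9_of_le g h

include h1 in
theorem L9_inv (g : FreeGroup Bs) : L9 g⁻¹ = L9 g := LL_inv wt9 sg9 bt h1 wt9_nonneg g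

include h1 in
theorem Bd9_conj (g c : FreeGroup Bs) (h : Bd9 g) : Bd9 (c * g * c⁻¹) := by
  obtain ⟨K, hK⟩ := h
  refine ⟨L9 c + K + L9 c, fun k => ?_⟩
  rw [conj_pow]
  have a1 := L9_mul h1 (c * g ^ k) c⁻¹
  have a2 := L9_mul h1 c (g ^ k)
  have a3 := L9_inv h1 c
  have a4 := hK k
  linarith

include h1 in
theorem not_Bd9_em (j : Fin 3) (γ : FreeGroup (Fin 3)) (hγ : γ ≠ 1) : ¬ Bd9 (em j γ) := by
  rintro ⟨K, hK⟩
  apply unb3 h1 γ hγ
  have hp : 0 < (bt + 1) ^ (j : ℕ) := by have := bt_pos; positivity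
  refine ⟨K / (bt + 1) ^ (j : ℕ), fun k => ?_⟩
  have := hK k
  rw [← map_pow, L9_em h1] at this
  rw [le_div_iff₀ hp]
  linarith

include h1 in
theorem not_Bd9_mixed (g : FreeGroup Bs) (i j : Fin 3) (hij : i ≠ j) (hi : hd i g)
    (hj : hd j g⁻¹) : ¬ Bd9 g := by
  rintro ⟨K, hK⟩
  have hg : g ≠ 1 := by
    rintro rfl
    obtain ⟨p, hp, _⟩ := hi
    simp at hp
  have hpos := L9_pos h1 g hg
  obtain ⟨k, hk⟩ := exists_nat_gt (K / L9 g)
  have := hK k
  rw [L9_pow_mixed h1 g i j hij hi hj] at this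
  rw [div_lt_iff₀ hpos] at hk
  linarith

theorem red_mid {l m n : List (Bs × Bool)} (h : FreeGroup.IsReduced (l ++ m ++ n)) :
    FreeGroup.IsReduced m := by
  rw [FreeGroup.IsReduced, List.isChain_append, List.isChain_append] at h
  exact h.1.2.1

/-- a non constant list has a jump -/
theorem exists_jump (l : List (Bs × Bool)) (h : ¬ ∃ j, ∀ p ∈ l, p.1.1 = j) :
    ∃ a x y b, l = a ++ x :: y :: b ∧ x.1.1 ≠ y.1.1 := by
  by_contra hcon
  push Not at hcon
  have hc : List.IsChain (fun x y : Bs × Bool => x.1.1 = y.1.1) l := by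
    rw [List.isChain_iff_forall_rel_of_append_cons_cons]
    intro x y a b hab
    exact hcon a x y b hab
  apply h
  clear hcon h
  induction l with
  | nil => exact ⟨0, by simp⟩
  | cons a l ih =>
    cases l with
    | nil => exact ⟨a.1.1, by simp⟩
    | cons b l =>
      rw [List.isChain_cons_cons] at hc
      obtain ⟨j, hj⟩ := ih hc.2
      refine ⟨j, ?_⟩
      intro p hp
      rcases List.mem_cons.mp hp with rfl | hp
      · rw [hc.1]; exact hj b (by simp)
      · exact hj p hp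

include h1 in
theorem unb9 (g : FreeGroup Bs) (hg : g ≠ 1) : ¬ Bd9 g := by
  intro hB
  set w := g.toWord with hw
  have hred : FreeGroup.IsReduced w := FreeGroup.isReduced_toWord
  set c := FreeGroup.reduceCyclically w with hc
  have hcr : FreeGroup.IsCyclicallyReduced c :=
    FreeGroup.reduceCyclically.isCyclicallyReduced hred
  have hconj := FreeGroup.reduceCyclically.conj_conjugator_reduceCyclically w
  set u := FreeGroup.reduceCyclically.conjugator w with hu
  have e1 : g = FreeGroup.mk u * FreeGroup.mk c * (FreeGroup.mk u)⁻¹ := by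
    rw [FreeGroup.inv_mk, FreeGroup.mul_mk, FreeGroup.mul_mk, ← hc] at *
    rw [hconj, hw, FreeGroup.mk_toWord]
  have hBc : Bd9 (FreeGroup.mk c) := by
    have h2 := Bd9_conj h1 g (FreeGroup.mk u)⁻¹ hB
    rw [e1] at h2
    have e2 : (FreeGroup.mk u)⁻¹ * (FreeGroup.mk u * FreeGroup.mk c * (FreeGroup.mk u)⁻¹) *
        (FreeGroup.mk u)⁻¹⁻¹ = FreeGroup.mk c := by group
    rwa [e2] at h2
  have hcne : FreeGroup.mk c ≠ 1 := by
    intro h2
    apply hg
    rw [e1, h2]; group
  by_cases hall : ∃ j, ∀ p ∈ c, p.1.1 = j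
  · obtain ⟨j, hj⟩ := hall
    rw [of_all j c hj] at hBc hcne
    refine not_Bd9_em h1 j _ ?_ hBc
    intro h2
    apply hcne
    rw [h2, map_one]
  · obtain ⟨a, x, y, b, hab, hxy⟩ := exists_jump c hall
    set c' := (y :: b) ++ (a ++ [x]) with hc'
    have hr1 : FreeGroup.IsReduced (y :: b) := by
      have h2 := hcr.isReduced
      rw [hab] at h2
      have e : a ++ x :: y :: b = (a ++ [x]) ++ (y :: b) ++ [] := by simp
      rw [e] at h2
      exact red_mid h2
    have hr2 : FreeGroup.IsReduced (a ++ [x]) := by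
      have h2 := hcr.isReduced
      rw [hab] at h2
      have e : a ++ x :: y :: b = [] ++ (a ++ [x]) ++ (y :: b) := by simp
      rw [e] at h2
      exact red_mid h2
    have hr : FreeGroup.IsReduced c' := by
      rw [hc', FreeGroup.IsReduced, List.isChain_append]
      refine ⟨hr1, hr2, ?_⟩
      intro s hs t ht
      have h2 := (FreeGroup.isCyclicallyReduced_iff.mp hcr).2
      apply h2 s ?_ t ?_
      · rw [hab]
        have e : a ++ x :: y :: b = (a ++ [x]) ++ (y :: b) := by simp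
        rw [e, List.getLast?_append_of_ne_nil _ (by simp)]
        exact hs
      · rw [hab]
        cases a with
        | nil => simpa using ht
        | cons a0 a => simpa using ht
    have htw : (FreeGroup.mk c').toWord = c' := by rw [FreeGroup.toWord_mk, hr.reduce_eq]
    have hB' : Bd9 (FreeGroup.mk c') := by
      have h2 := Bd9_conj h1 _ (FreeGroup.mk (a ++ [x]))⁻¹ hBc
      have e : (FreeGroup.mk (a ++ [x]))⁻¹ * FreeGroup.mk c * (FreeGroup.mk (a ++ [x]))⁻¹⁻¹ =
          FreeGroup.mk c' := by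
        have e3 : FreeGroup.mk c = FreeGroup.mk (a ++ [x]) * FreeGroup.mk (y :: b) := by
          rw [hab, FreeGroup.mul_mk]; simp
        have e4 : FreeGroup.mk c' = FreeGroup.mk (y :: b) * FreeGroup.mk (a ++ [x]) := by
          rw [hc', FreeGroup.mul_mk]
        rw [e3, e4]
        generalize FreeGroup.mk (a ++ [x]) = A
        generalize FreeGroup.mk (y :: b) = B
        group
      rwa [e] at h2
    refine not_Bd9_mixed h1 (FreeGroup.mk c') y.1.1 x.1.1 (Ne.symm hxy) ?_ ?_ hB'
    · exact ⟨y, by rw [htw, hc']; rfl, rfl⟩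
    · refine ⟨(x.1, !x.2), ?_, rfl⟩
      rw [FreeGroup.toWord_inv, htw, FreeGroup.invRev, List.head?_reverse, List.getLast?_map, hc']
      have e : y :: b ++ (a ++ [x]) = (y :: (b ++ a)) ++ [x] := by simp
      rw [e, List.getLast?_append_of_ne_nil _ (by simp)]
      simp

include h1 in
theorem L9_hyp (x y z t : FreeGroup Bs) :
    L9 (x⁻¹ * y) + L9 (z⁻¹ * t) ≤
      max (L9 (x⁻¹ * z) + L9 (y⁻¹ * t)) (L9 (x⁻¹ * t) + L9 (y⁻¹ * z)) :=
  LL_hyp wt9 sg9 bt h1 wt9_nonneg bt_pos sg9_of_le x y z t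

include h1 in
theorem L9_sq (g : FreeGroup Bs) (hg : g ≠ 1) : L9 g < L9 (g * g) := by
  by_contra hcon
  have hle := not_lt.mp hcon
  apply unb9 h1 g hg
  have h0 := L9_nonneg h1 g
  have h10 : L9 1 = 0 := LL_one wt9 sg9 bt h1 wt9_nonneg bt_pos sg9_of_le
  have key : ∀ k : ℕ, L9 (g ^ k) ≤ L9 g ∧ L9 (g ^ (k + 1)) ≤ L9 g := by
    intro k
    induction k with
    | zero => simp [h10, h0]
    | succ k ih =>
      refine ⟨ih.2, ?_⟩
      have h2 := L9_hyp h1 1 (g ^ (k + 2)) g (g ^ 2)
      have e1 : (1 : FreeGroup Bs)⁻¹ * g ^ (k + 2) = g ^ (k + 1 + 1) := by simp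
      have e2 : g⁻¹ * g ^ 2 = g := by group
      have e3 : (1 : FreeGroup Bs)⁻¹ * g = g := by simp
      have e4 : (g ^ (k + 2))⁻¹ * g ^ 2 = (g ^ k)⁻¹ := by
        rw [pow_add]; group
      have e5 : (1 : FreeGroup Bs)⁻¹ * g ^ 2 = g * g := by simp [pow_two]
      have e6 : (g ^ (k + 2))⁻¹ * g = (g ^ (k + 1))⁻¹ := by
        have : g ^ (k + 2) = g * g ^ (k + 1) := by rw [← pow_succ']
        rw [this]; group
      rw [e1, e2, e3, e4, e5, e6, L9_inv h1, L9_inv h1] at h2
      rcases le_max_iff.mp h2 with h3 | h3 <;> linarith [ih.1, ih.2]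
  exact ⟨L9 g, fun k => (key k).1⟩

end

end Pool.Agent.LF.MM
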