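import Pool.Agent.Lib.LF.M.Lim

/-!
# C43 block M: powers of nontrivial elements of F_3 have unbounded `L3`
-/

set_option autoImplicit false
set_option linter.unusedSectionVars false

namespace Pool.Agent.LF.MM

/-- product of pairs `u v⁻¹` -/
def ev2 : PL → FreeGroup (Fin 3)
  | [] => 1
  | p :: l => pw p.1 * (pw p.2)⁻¹ * ev2 l

theorem ev2_append (l m : PL) : ev2 (l ++ m) = ev2 l * ev2 m := by
  induction l with
  | nil => simp [ev2]
  | cons p l ih => rw [List.cons_append, ev2, ih, ev2]; group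

theorem ev2_single (p : List (Fin 3) × List (Fin 3)) : ev2 [p] = pw p.1 * (pw p.2)⁻¹ := by
  simp [ev2]

theorem exists_ev2 (g : FreeGroup (Fin 3)) : ∃ Q, ev2 Q = g := by
  have key : ∀ l : List (Fin 3 × Bool), ∃ Q, ev2 Q = FreeGroup.mk l := by
    intro l
    induction l with
    | nil => exact ⟨[], rfl⟩
    | cons p l ih =>
      obtain ⟨Q, hQ⟩ := ih
      have e : FreeGroup.mk (p :: l) = FreeGroup.mk [p] * FreeGroup.mk l := by
        rw [FreeGroup.mul_mk]; rfl
      rcases p with ⟨a, c⟩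
      cases c
      · refine ⟨([], [a]) :: Q, ?_⟩
        rw [e, ← hQ, ev2]
        have : FreeGroup.mk [(a, false)] = (FreeGroup.of a)⁻¹ := rfl
        rw [this]
        simp [pw]
      · refine ⟨([a], []) :: Q, ?_⟩
        rw [e, ← hQ, ev2]
        have : FreeGroup.mk [(a, true)] = FreeGroup.of a := rfl
        rw [this]
        simp [pw]
  obtain ⟨Q, hQ⟩ := key g.toWord
  exact ⟨Q, by rw [hQ, FreeGroup.mk_toWord]⟩

/-! ## the inverse of the substitution -/

def iv3 : FreeGroup (Fin 3) →* FreeGroup (Fin 3) :=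
  FreeGroup.lift ![(FreeGroup.of 0)⁻¹ * FreeGroup.of 1, (FreeGroup.of 0)⁻¹ * FreeGroup.of 2,
    FreeGroup.of 0]

theorem iv3_sg3 (g : FreeGroup (Fin 3)) : iv3 (sg3 g) = g := by
  have : iv3.comp sg3 = MonoidHom.id _ := by
    apply FreeGroup.ext_hom
    intro x
    fin_cases x <;> simp [sg3, iv3, pw, sb]
  exact DFunLike.congr_fun this g

theorem sg3_inj : Function.Injective sg3 := Function.LeftInverse.injective iv3_sg3

/-! ## bounded elements -/

/-- bounded powers -/
def Bd (g : FreeGroup (Fin 3)) : Prop := ∃ K : ℝ, ∀ k : ℕ, L3 (g ^ k) ≤ K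

section
variable (h1 : S_M1)

include h1 in
theorem L3_mul (g h : FreeGroup (Fin 3)) : L3 (g * h) ≤ L3 g + L3 h :=
  LL_mul wt3 sg3 bt h1 wt3_nonneg bt_pos sg3_of_le g h

include h1 in
theorem L3_inv (g : FreeGroup (Fin 3)) : L3 g⁻¹ = L3 g := LL_inv wt3 sg3 bt h1 wt3_nonneg g

include h1 in
theorem L3_nonneg (g : FreeGroup (Fin 3)) : 0 ≤ L3 g :=
  LL_nonneg wt3 sg3 bt h1 wt3_nonneg bt_pos sg3_of_le g

include h1 in
theorem L3_sg3 (g : FreeGroup (Fin 3)) : L3 (sg3 g) ≤ bt * L3 g := by
  refine le_of_tendsto_of_tendsto' (LL_tendsto wt3 sg3 bt h1 wt3_nonneg bt_pos sg3_of_le (sg3 g))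
    ((LL_tendsto wt3 sg3 bt h1 wt3_nonneg bt_pos sg3_of_le g).const_mul bt) fun n => ?_
  rw [← Function.iterate_succ_apply, Function.iterate_succ_apply', ← mul_div_assoc]
  exact div_le_div_of_nonneg_right (wl_step wt3 sg3 bt h1 wt3_nonneg sg3_of_le _)
    (pow_pos bt_pos n).le

include h1 in
theorem Bd_conj (g c : FreeGroup (Fin 3)) (h : Bd g) : Bd (c * g * c⁻¹) := by
  obtain ⟨K, hK⟩ := h
  refine ⟨L3 c + K + L3 c, fun k => ?_⟩
  rw [conj_pow]
  have a1 := L3_mul h1 (c * g ^ k) c⁻¹
  have a2 := L3_mul h1 c (g ^ k)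
  have a3 := L3_inv h1 c
  have a4 := hK k
  linarith

include h1 in
theorem Bd_sg3 (g : FreeGroup (Fin 3)) (h : Bd g) : Bd (sg3 g) := by
  obtain ⟨K, hK⟩ := h
  refine ⟨bt * K, fun k => ?_⟩
  rw [← map_pow]
  exact (L3_sg3 h1 _).trans (mul_le_mul_of_nonneg_left (hK k) bt_pos.le)

include h1 in
theorem Bd_inv (g : FreeGroup (Fin 3)) (h : Bd g) : Bd g⁻¹ := by
  obtain ⟨K, hK⟩ := h
  refine ⟨K, fun k => ?_⟩
  rw [inv_pow, L3_inv h1]
  exact hK k

theorem pw_pow (u : List (Fin 3)) (k : ℕ) : (pw u) ^ k = pw (List.replicate k u).flatten := by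
  induction k with
  | zero => simp [pw_nil]
  | succ k ih => rw [pow_succ', ih, List.replicate_succ, List.flatten_cons, pw_append]

theorem wu_pow (u : List (Fin 3)) (k : ℕ) : wu (List.replicate k u).flatten = k * wu u := by
  induction k with
  | zero => simp [wu_nil]
  | succ k ih =>
    rw [List.replicate_succ, List.flatten_cons, wu_append, ih]
    push_cast; ring

include h1 in
theorem L3_pw (u : List (Fin 3)) : L3 (pw u) = wu u := by
  have := L3_ev h1 u [] [] (by simp [ok]) (by simp [hvy])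
  simpa [ev, evp, pw_nil, wr, wu_nil] using this

include h1 in
theorem Bd_pw (u : List (Fin 3)) (h : Bd (pw u)) : u = [] := by
  by_contra hu
  obtain ⟨K, hK⟩ := h
  have hpos : 0 < wu u := by
    cases u with
    | nil => exact absurd rfl hu
    | cons x u =>
      rw [wu_cons]
      have := wt3_pos x
      have := wu_nonneg u
      linarith
  obtain ⟨k, hk⟩ := exists_nat_gt (K / wu u)
  have := hK k
  rw [pw_pow, L3_pw h1, wu_pow] at this
  rw [div_lt_iff₀ hpos] at hk
  linarith

/-! ## conversion to `ev` -/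

def zipp : List (Fin 3) → PL → PL
  | _, [] => []
  | v, p :: l => (v, p.1) :: zipp p.2 l

def lastv : List (Fin 3) → PL → List (Fin 3)
  | v, [] => v
  | _, p :: l => lastv p.2 l

theorem ev2_eq (l : PL) : ∀ u v, ev2 ((u, v) :: l) = ev u (zipp v l) (lastv v l) := by
  induction l with
  | nil => intro u v; simp [ev2, ev, zipp, lastv, evp]
  | cons p l ih =>
    intro u v
    have := ih p.1 p.2
    rw [ev2, this]
    simp only [ev, zipp, lastv, evp]
    group

theorem wr_zipp (l : PL) : ∀ u v, wu u + wr (zipp v l) + wu (lastv v l)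
    = wr ((u, v) :: l) + 2 * bt ^ 3 := by
  induction l with
  | nil => intro u v; simp [zipp, lastv, wr]; ring
  | cons p l ih =>
    intro u v
    have := ih p.1 p.2
    simp only [zipp, lastv, wr] at this ⊢
    linarith

/-- relation for neighbours -/
def Rn (p q : List (Fin 3) × List (Fin 3)) : Prop := p.2.head? ≠ q.1.head?

/-- conditions on each pair -/
def Gp (p : List (Fin 3) × List (Fin 3)) : Prop :=
  bt ^ 3 < wu p.1 ∧ bt ^ 3 < wu p.2 ∧ p.1.getLast? ≠ p.2.getLast?

theorem ok_zipp (l : PL) : ∀ u v, Gp (u, v) → (∀ p ∈ l, Gp p) →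
    List.IsChain Rn ((u, v) :: l) → ok u (zipp v l) (lastv v l) := by
  induction l with
  | nil =>
    intro u v h _ _
    simp only [zipp, lastv, ok]
    exact Or.inr (Or.inr h.2.2)
  | cons p l ih =>
    intro u v h hl hc
    rw [List.isChain_cons_cons] at hc
    have hp := hl p (by simp)
    simp only [zipp, lastv, ok]
    refine ⟨ne_of_hv _ h.2.1, ne_of_hv _ hp.1, Or.inr h.2.2, hc.1, ?_⟩
    exact ih p.1 p.2 hp (fun q hq => hl q (by simp [hq])) hc.2

theorem hv_zipp (l : PL) : ∀ u v, Gp (u, v) → (∀ p ∈ l, Gp p) → hvy (zipp v l) := by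
  induction l with
  | nil => intro u v _ _; simp [zipp, hvy]
  | cons p l ih =>
    intro u v h hl
    have hp := hl p (by simp)
    have ih' := ih p.1 p.2 hp (fun q hq => hl q (by simp [hq]))
    intro q hq
    simp only [zipp, List.mem_cons] at hq
    rcases hq with rfl | hq
    · exact ⟨h.2.1, hp.1⟩
    · exact ih' q hq

include h1 in
theorem L3_ev2 (p : List (Fin 3) × List (Fin 3)) (l : PL) (hG : ∀ q ∈ p :: l, Gp q)
    (hc : List.IsChain Rn (p :: l)) : L3 (ev2 (p :: l)) = wr (p :: l) + 2 * bt ^ 3 := by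
  rcases p with ⟨u, v⟩
  have hp := hG (u, v) (by simp)
  have hl : ∀ q ∈ l, Gp q := fun q hq => hG q (by simp [hq])
  rw [ev2_eq, L3_ev h1 _ _ _ (ok_zipp l u v hp hl hc) (hv_zipp l u v hp hl), wr_zipp]

theorem wr_append (l m : PL) : wr (l ++ m) = wr l + wr m := by
  induction l with
  | nil => simp [wr]
  | cons p l ih => rw [List.cons_append, wr, ih, wr]; ring

theorem ev2_pow (Q : PL) (k : ℕ) : (ev2 Q) ^ k = ev2 (List.replicate k Q).flatten := by
  induction k with
  | zero => simp [ev2]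
  | succ k ih => rw [pow_succ', ih, List.replicate_succ, List.flatten_cons, ev2_append]

theorem wr_pow (Q : PL) (k : ℕ) : wr (List.replicate k Q).flatten = k * wr Q := by
  induction k with
  | zero => simp [wr]
  | succ k ih =>
    rw [List.replicate_succ, List.flatten_cons, wr_append, ih]
    push_cast; ring

theorem wr_pos (Q : PL) (hQ : Q ≠ []) (hG : ∀ q ∈ Q, Gp q) : 0 < wr Q := by
  induction Q with
  | nil => exact absurd rfl hQ
  | cons p l ih =>
    have hp := hG p (by simp)
    rw [wr]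
    have h3 : 0 ≤ wr l := by
      by_cases hl : l = []
      · subst hl; simp [wr]
      · exact (ih hl fun q hq => hG q (by simp [hq])).le
    have := hp.1
    have := hp.2.1
    linarith

theorem chain_pow (p : List (Fin 3) × List (Fin 3)) (l : PL)
    (hc : List.IsChain Rn (p :: (l ++ [p]))) (k : ℕ) :
    List.IsChain Rn ((List.replicate k (p :: l)).flatten ++ [p]) := by
  induction k with
  | zero => simp
  | succ k ih =>
    rw [List.replicate_succ, List.flatten_cons, List.append_assoc]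
    have hc' : List.IsChain Rn ((p :: l) ++ [p]) := hc
    rw [List.isChain_append] at hc' ⊢
    refine ⟨hc'.1, ih, ?_⟩
    intro x hx y hy
    have hy' : y = p := by
      cases k with
      | zero => simp at hy; exact hy.symm
      | succ k =>
        rw [List.replicate_succ, List.flatten_cons] at hy
        simp at hy; exact hy.symm
    subst hy'
    exact hc'.2.2 x hx y (by simp)

include h1 in
theorem not_Bd_ev2 (p : List (Fin 3) × List (Fin 3)) (l : PL) (hG : ∀ q ∈ p :: l, Gp q)
    (hc : List.IsChain Rn (p :: (l ++ [p]))) : ¬ Bd (ev2 (p :: l)) := by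
  rintro ⟨K, hK⟩
  have hpos := wr_pos (p :: l) (by simp) hG
  obtain ⟨k, hk⟩ := exists_nat_gt (K / wr (p :: l))
  have h2 := hK (k + 1)
  have h3 := chain_pow p l hc (k + 1)
  rw [ev2_pow] at h2
  rw [List.isChain_append] at h3
  have h4 := wr_pow (p :: l) (k + 1)
  have hmem : ∀ q ∈ (List.replicate (k + 1) (p :: l)).flatten, Gp q := by
    intro q hq
    rw [List.mem_flatten] at hq
    obtain ⟨m, hm, hq⟩ := hq
    rw [List.mem_replicate] at hm
    rw [hm.2] at hq
    exact hG q hq
  have h5 : ∃ l', (List.replicate (k + 1) (p :: l)).flatten = p :: l' := by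
    rw [List.replicate_succ, List.flatten_cons, List.cons_append]
    exact ⟨_, rfl⟩
  obtain ⟨l', hl'⟩ := h5
  rw [hl'] at h2 h3 h4 hmem
  rw [L3_ev2 h1 p l' hmem h3.1, h4] at h2
  rw [div_lt_iff₀ hpos] at hk
  have := pow_pos bt_pos 3
  push_cast at h2
  nlinarith

end

end Pool.Agent.LF.MM
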