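import Pool.Agent.Lib.LF.M.Unb3

/-!
# C43 block M: the minimal representation argument
-/

set_option autoImplicit false
set_option linter.unusedSectionVars false

namespace Pool.Agent.LF.MM

/-- total number of letters -/
def tot : PL → ℕ
  | [] => 0
  | p :: l => p.1.length + p.2.length + tot l

theorem tot_append (l m : PL) : tot (l ++ m) = tot l + tot m := by
  induction l with
  | nil => simp [tot]
  | cons p l ih => rw [List.cons_append, tot, ih, tot]; ring

/-- nontrivial bounded elements -/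
def BS (g : FreeGroup (Fin 3)) : Prop := g ≠ 1 ∧ Bd g

section
variable (h1 : S_M1)

include h1 in
theorem BS_conj (g c : FreeGroup (Fin 3)) (h : BS g) : BS (c * g * c⁻¹) := by
  refine ⟨?_, Bd_conj h1 g c h.2⟩
  intro hh
  apply h.1
  have : c * g * c⁻¹ = c * 1 * c⁻¹ := by rw [hh]; group
  exact mul_left_cancel (mul_right_cancel this)

include h1 in
theorem BS_swap (a b : FreeGroup (Fin 3)) (h : BS (a * b)) : BS (b * a) := by
  have := BS_conj h1 (a * b) b h
  have e : b * (a * b) * b⁻¹ = b * a := by group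
  rwa [e] at this

include h1 in
theorem BS_sg3 (g : FreeGroup (Fin 3)) (h : BS g) : BS (sg3 g) := by
  refine ⟨?_, Bd_sg3 h1 g h.2⟩
  intro hh
  apply h.1
  apply sg3_inj
  rw [hh, map_one]

include h1 in
theorem BS_rot (l m : PL) (h : BS (ev2 (l ++ m))) : BS (ev2 (m ++ l)) := by
  rw [ev2_append] at h ⊢
  exact BS_swap h1 _ _ h

/-- minimal number of pairs -/
def Mn (r : ℕ) : Prop := ∀ Q : PL, BS (ev2 Q) → r ≤ Q.length

include h1 in
/-- in a minimal representation no word of the first pair is empty -/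
theorem ne_first (r : ℕ) (hr : Mn r) (p : List (Fin 3) × List (Fin 3)) (l : PL)
    (hl : (p :: l).length = r) (h : BS (ev2 (p :: l))) : p.1 ≠ [] ∧ p.2 ≠ [] := by
  rcases p with ⟨u, v⟩
  constructor
  · rintro rfl
    rcases List.eq_nil_or_concat l with rfl | ⟨l', q, rfl⟩
    · -- negative word
      rw [ev2_single] at h
      simp only [pw_nil, one_mul] at h
      have h2 : Bd (pw v) := by
        have := Bd_inv h1 _ h.2
        rwa [inv_inv] at this
      have := Bd_pw h1 v h2
      subst this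
      exact h.1 (by simp [pw_nil])
    · rw [List.concat_eq_append] at h hl
      have h2 : BS (ev2 (l' ++ [(q.1, v ++ q.2)])) := by
        have h3 := BS_rot h1 [(([] : List (Fin 3)), v)] (l' ++ [q]) h
        have e : ev2 ((l' ++ [q]) ++ [(([] : List (Fin 3)), v)]) = ev2 (l' ++ [(q.1, v ++ q.2)]) := by
          simp only [ev2_append, ev2_single, pw_append, pw_nil]
          group
        rwa [e] at h3
      have := hr _ h2
      simp at this hl
      omega
  · rintro rfl
    cases l with
    | nil =>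
      rw [ev2_single] at h
      simp only [pw_nil, inv_one, mul_one] at h
      have := Bd_pw h1 u h.2
      subst this
      exact h.1 (by simp [pw_nil])
    | cons q l =>
      have h2 : BS (ev2 ((u ++ q.1, q.2) :: l)) := by
        have e : ev2 ((u, ([] : List (Fin 3))) :: q :: l) = ev2 ((u ++ q.1, q.2) :: l) := by
          simp only [ev2, pw_append, pw_nil]
          group
        rwa [e] at h
      have := hr _ h2
      simp at this hl
      omega

include h1 in
theorem ne_all (r : ℕ) (hr : Mn r) (Q : PL) (hl : Q.length = r) (h : BS (ev2 Q)) :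
    ∀ p ∈ Q, p.1 ≠ [] ∧ p.2 ≠ [] := by
  intro p hp
  obtain ⟨l, m, rfl⟩ := List.append_of_mem hp
  have h2 := BS_rot h1 l (p :: m) h
  refine ne_first h1 r hr p (m ++ l) ?_ h2
  simp at hl ⊢
  omega

/-! ## the substitution on pairs -/

theorem ev2_hatp (Q : PL) (h : ∀ p ∈ Q, p.1 ≠ [] ∧ p.2 ≠ []) :
    sg3 (ev2 Q) = FreeGroup.of 2 * ev2 (hatp Q) * (FreeGroup.of 2)⁻¹ := by
  induction Q with
  | nil => simp [ev2, hatp]
  | cons p l ih =>
    have hp := h p (by simp)
    have ih' := ih fun q hq => h q (by simp [hq])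
    rw [ev2, map_mul, map_mul, map_inv, sg3_pw, sg3_pw, pw_sub _ hp.1, pw_sub _ hp.2, ih']
    simp only [hatp, List.map_cons, ev2]
    group

include h1 in
theorem BS_hatp (Q : PL) (h : ∀ p ∈ Q, p.1 ≠ [] ∧ p.2 ≠ []) (hb : BS (ev2 Q)) :
    BS (ev2 (hatp Q)) := by
  have h2 := BS_sg3 h1 _ hb
  rw [ev2_hatp Q h] at h2
  have h3 := BS_conj h1 _ (FreeGroup.of 2)⁻¹ h2
  have e : (FreeGroup.of 2 : FreeGroup (Fin 3))⁻¹ * (FreeGroup.of 2 * ev2 (hatp Q) *
      (FreeGroup.of 2)⁻¹) * (FreeGroup.of 2)⁻¹⁻¹ = ev2 (hatp Q) := by group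
  rwa [e] at h3

theorem hatp_iter (n : ℕ) (Q : PL) : hatp^[n] Q = Q.map fun p => (hat^[n] p.1, hat^[n] p.2) := by
  induction n generalizing Q with
  | zero => simp
  | succ n ih =>
    rw [Function.iterate_succ_apply, ih, hatp, List.map_map]
    rfl

include h1 in
theorem iter_good (r : ℕ) (hr : Mn r) (Q : PL) (hl : Q.length = r) (h : BS (ev2 Q)) (n : ℕ) :
    BS (ev2 (hatp^[n] Q)) ∧ (hatp^[n] Q).length = r := by
  induction n with
  | zero => exact ⟨h, hl⟩
  | succ n ih =>
    rw [Function.iterate_succ_apply']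
    refine ⟨BS_hatp h1 _ (ne_all h1 r hr _ ih.2 ih.1) ih.1, ?_⟩
    rw [hatp, List.length_map, ih.2]

include h1 in
theorem heavy_all (r : ℕ) (hr : Mn r) (Q : PL) (hl : Q.length = r) (h : BS (ev2 Q)) :
    ∀ p ∈ Q, bt ^ 3 < wu p.1 ∧ bt ^ 3 < wu p.2 := by
  intro p hp
  have key : ∀ n, hat^[n] p.1 ≠ [] ∧ hat^[n] p.2 ≠ [] := by
    intro n
    obtain ⟨h2, h3⟩ := iter_good h1 r hr Q hl h n
    rw [hatp_iter] at h2 h3
    have := ne_all h1 r hr _ h3 h2 (hat^[n] p.1, hat^[n] p.2)
      (List.mem_map.mpr ⟨p, hp, rfl⟩)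
    exact this
  exact ⟨heavy_of_hat_ne _ fun n => (key n).1, heavy_of_hat_ne _ fun n => (key n).2⟩

/-! ## no cancellation in a shortest representation -/

/-- minimal total length among representations with `r` pairs -/
def Mt (r m : ℕ) : Prop := ∀ Q : PL, Q.length = r → BS (ev2 Q) → m ≤ tot Q

theorem head_split (u v : List (Fin 3)) (hu : u ≠ []) (h : u.head? = v.head?) :
    ∃ c u' v', u = c :: u' ∧ v = c :: v' := by
  cases u with
  | nil => exact absurd rfl hu
  | cons c u =>
    cases v with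
    | nil => simp at h
    | cons d v =>
      simp at h
      exact ⟨c, u, v, rfl, by rw [h]⟩

theorem last_split (u v : List (Fin 3)) (hu : u ≠ []) (h : u.getLast? = v.getLast?) :
    ∃ c u' v', u = u' ++ [c] ∧ v = v' ++ [c] := by
  rcases List.eq_nil_or_concat u with rfl | ⟨u', c, rfl⟩
  · exact absurd rfl hu
  · rcases List.eq_nil_or_concat v with rfl | ⟨v', d, rfl⟩
    · simp at h
    · simp only [List.concat_eq_append] at h ⊢
      simp at h
      exact ⟨c, u', v', rfl, by rw [h]⟩

include h1 in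
theorem pair_last (r m : ℕ) (hr : Mn r) (hm : Mt r m) (Q : PL) (hl : Q.length = r)
    (h : BS (ev2 Q)) (ht : tot Q = m) : ∀ p ∈ Q, p.1.getLast? ≠ p.2.getLast? := by
  intro p hp heq
  have hne := ne_all h1 r hr Q hl h p hp
  obtain ⟨l, n, rfl⟩ := List.append_of_mem hp
  obtain ⟨c, u', v', hu, hvy⟩ := last_split _ _ hne.1 heq
  have e : ev2 (l ++ p :: n) = ev2 (l ++ (u', v') :: n) := by
    rw [ev2_append, ev2_append, ev2, ev2, hu, hvy]
    simp only [pw_append]
    group
  rw [e] at h
  have h2 := hm (l ++ (u', v') :: n) (by simpa using hl) h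
  rw [tot_append, tot] at h2 ht
  rw [hu, hvy] at ht
  simp at h2 ht
  omega

include h1 in
theorem chain_cyc (r m : ℕ) (hr : Mn r) (hm : Mt r m) (p : List (Fin 3) × List (Fin 3)) (l : PL)
    (hl : (p :: l).length = r) (h : BS (ev2 (p :: l))) (ht : tot (p :: l) = m) :
    List.IsChain Rn (p :: (l ++ [p])) := by
  have hne := ne_all h1 r hr _ hl h
  rw [List.isChain_iff_forall_rel_of_append_cons_cons]
  intro x y a b hab heq
  rcases List.eq_nil_or_concat b with rfl | ⟨b', z, rfl⟩
  · -- y is the last p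
    have e1 : (p :: l) ++ [p] = (a ++ [x]) ++ [y] := by simpa using hab
    have e2 := List.append_inj' e1 rfl
    have e3 : y = p := by have := e2.2; simpa using this.symm
    subst e3
    cases a with
    | nil =>
      -- single pair
      have e4 : y = x ∧ l = [] := by
        have := e2.1
        simp only [List.nil_append] at this
        rw [List.cons.injEq] at this
        exact this
      obtain ⟨e5, e6⟩ := e4
      subst e5 e6
      have hy := hne y (by simp)
      obtain ⟨c, v', u', hvy, hu⟩ := head_split _ _ hy.2 heq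
      have h2 : BS (ev2 [(u', v')]) := by
        have e : ev2 [y] = FreeGroup.of c * ev2 [(u', v')] * (FreeGroup.of c)⁻¹ := by
          rw [ev2_single, ev2_single, hu, hvy, pw_cons, pw_cons]
          group
        rw [e] at h
        have h3 := BS_conj h1 _ (FreeGroup.of c)⁻¹ h
        have e' : (FreeGroup.of c : FreeGroup (Fin 3))⁻¹ * (FreeGroup.of c * ev2 [(u', v')] *
            (FreeGroup.of c)⁻¹) * (FreeGroup.of c)⁻¹⁻¹ = ev2 [(u', v')] := by group
        rwa [e'] at h3
      have h3 := hm _ (by simpa using hl) h2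
      simp only [tot] at h3 ht
      rw [hu, hvy] at ht
      simp at h3 ht
      omega
    | cons q a =>
      have e4 : y = q ∧ l = a ++ [x] := by
        have := e2.1
        rw [List.cons_append, List.cons.injEq] at this
        exact this
      obtain ⟨e5, e6⟩ := e4
      subst e5 e6
      have hx := hne x (by simp)
      obtain ⟨c, v', u', hvy, hu⟩ := head_split _ _ hx.2 heq
      have h2 : BS (ev2 ((u', y.2) :: (a ++ [(x.1, v')]))) := by
        have e : ev2 (y :: (a ++ [x])) = FreeGroup.of c * ev2 ((u', y.2) :: (a ++ [(x.1, v')])) *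
            (FreeGroup.of c)⁻¹ := by
          rw [ev2, ev2_append, ev2_single, ev2, ev2_append, ev2_single, hu, hvy, pw_cons, pw_cons]
          group
        rw [e] at h
        have h3 := BS_conj h1 _ (FreeGroup.of c)⁻¹ h
        have e' : (FreeGroup.of c : FreeGroup (Fin 3))⁻¹ * (FreeGroup.of c *
            ev2 ((u', y.2) :: (a ++ [(x.1, v')])) *
            (FreeGroup.of c)⁻¹) * (FreeGroup.of c)⁻¹⁻¹ = ev2 ((u', y.2) :: (a ++ [(x.1, v')])) := by
          group
        rwa [e'] at h3
      have h3 := hm _ (by simpa using hl) h2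
      simp only [tot, tot_append] at h3 ht
      rw [hu, hvy] at ht
      simp at h3 ht
      omega
  · rw [List.concat_eq_append] at hab
    have e1 : (p :: l) ++ [p] = (a ++ x :: y :: b') ++ [z] := by simpa using hab
    have e2 := List.append_inj' e1 rfl
    have e3 := e2.1
    rw [e3] at h hl ht hne
    have hx := hne x (by simp)
    obtain ⟨c, v', u', hvy, hu⟩ := head_split _ _ hx.2 heq
    have h2 : BS (ev2 (a ++ (x.1, v') :: (u', y.2) :: b')) := by
      have e : ev2 (a ++ x :: y :: b') = ev2 (a ++ (x.1, v') :: (u', y.2) :: b') := by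
        rw [ev2_append, ev2_append, ev2, ev2, ev2, ev2, hu, hvy, pw_cons, pw_cons]
        group
      rwa [e] at h
    have h3 := hm _ (by simpa using hl) h2
    simp only [tot, tot_append] at h3 ht
    rw [hu, hvy] at ht
    simp at h3 ht
    omega

include h1 in
/-- nontrivial elements of `F_3` have unbounded powers -/
theorem unb3 (g : FreeGroup (Fin 3)) (hg : g ≠ 1) : ¬ Bd g := by
  intro hb
  classical
  have hex : ∃ r, ∃ Q : PL, Q.length = r ∧ BS (ev2 Q) := by
    obtain ⟨Q, hQ⟩ := exists_ev2 g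
    exact ⟨_, Q, rfl, by rw [hQ]; exact ⟨hg, hb⟩⟩
  have hr : Mn (Nat.find hex) := fun Q hQ => Nat.find_min' hex ⟨Q, rfl, hQ⟩
  obtain ⟨Q0, hQ0, hB0⟩ := Nat.find_spec hex
  set r := Nat.find hex with hrdef
  have hex2 : ∃ m, ∃ Q : PL, Q.length = r ∧ BS (ev2 Q) ∧ tot Q = m := ⟨_, Q0, hQ0, hB0, rfl⟩
  have hm : Mt r (Nat.find hex2) := fun Q hQ hB => Nat.find_min' hex2 ⟨Q, hQ, hB, rfl⟩
  obtain ⟨Q, hQ, hB, ht⟩ := Nat.find_spec hex2
  cases Q with
  | nil => exact hB.1 rfl
  | cons p l =>
    refine not_Bd_ev2 h1 p l ?_ (chain_cyc h1 r _ hr hm p l hQ hB ht) hB.2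
    intro q hq
    have a1 := heavy_all h1 r hr _ hQ hB q hq
    exact ⟨a1.1, a1.2, pair_last h1 r _ hr hm _ hQ hB ht q hq⟩

end

end Pool.Agent.LF.MM
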